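import Pool.Agent.H487R3.EnvA

set_option autoImplicit false

open Filter Topology Set

namespace H487.Env

variable {X : Type} [NormedAddCommGroup X] [NormedSpace ℝ X]

/-- Passing to blocks on whose closed convex hull a norm-type function is almost constant. -/
theorem stab (y : ℕ → X) (hy : ∀ k, ‖y k‖ ≤ 1) (a : X) (τ : ℝ) (hτ : 0 ≤ τ) (η : ℝ) (hη : 0 < η) :
    ∃ z : ℕ → X, (∀ k, z k ∈ K y k) ∧ ∃ m : ℝ, ∀ w ∈ K z 0, |‖a + τ • w‖ - m| ≤ η := by
  let φ : X → ℝ := fun z => ‖a + τ • z‖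
  have hφ0 : ∀ z, 0 ≤ φ z := fun z => norm_nonneg _
  let I : ℕ → ℝ := fun n => sInf (φ '' K y n)
  have hbd : ∀ n, BddBelow (φ '' K y n) := fun n => ⟨0, by rintro _ ⟨z, _, rfl⟩; exact hφ0 z⟩
  have hne : ∀ n, (K y n).Nonempty := fun n => ⟨y n, mem_K y le_rfl⟩
  have hI : ∀ n, ∀ z ∈ K y n, I n ≤ φ z := fun n z hz => csInf_le (hbd n) ⟨z, hz, rfl⟩
  have hmono : Monotone I := by
    intro m n hmn
    exact csInf_le_csInf (hbd m) ((hne n).image φ) (image_mono (K_anti y hmn))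
  have hIb : ∀ n, I n ≤ ‖a‖ + τ := by
    intro n
    refine (hI n _ (mem_K y le_rfl)).trans ?_
    refine (norm_add_le _ _).trans ?_
    rw [norm_smul, Real.norm_of_nonneg hτ]
    have : τ * ‖y n‖ ≤ τ * 1 := mul_le_mul_of_nonneg_left (hy n) hτ
    linarith
  have hbdd : BddAbove (range I) := ⟨‖a‖ + τ, by rintro _ ⟨n, rfl⟩; exact hIb n⟩
  let m : ℝ := ⨆ n, I n
  have hIm : ∀ n, I n ≤ m := fun n => le_ciSup hbdd n
  obtain ⟨N, hN⟩ : ∃ N, m - η < I N := by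
    exact exists_lt_of_lt_ciSup (sub_lt_self m hη)
  have hex : ∀ k, ∃ z ∈ K y (max k N), φ z ≤ m + η := by
    intro k
    obtain ⟨z, hz, hz'⟩ := exists_almost_min (hne (max k N)) φ hφ0 hη
    refine ⟨z, hz, ?_⟩
    have : φ z - η ≤ I (max k N) := by
      refine le_csInf ((hne _).image φ) ?_
      rintro _ ⟨w, hw, rfl⟩
      linarith [hz' w hw]
    linarith [hIm (max k N)]
  choose z hz hzm using hex
  refine ⟨z, fun k => K_anti y (le_max_left _ _) (hz k), m, fun w hw => ?_⟩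
  rw [abs_le]
  constructor
  · have h1 : w ∈ K y N :=
      K_subset (K_closed y N) (K_convex y N) (fun k _ => K_anti y (le_max_right _ _) (hz k)) hw
    have := hI N w h1
    show -η ≤ φ w - m
    linarith
  · have h1 : K z 0 ⊆ {w | φ w ≤ m + η} := by
      refine K_subset ?_ ?_ (fun k _ => hzm k)
      · refine isClosed_le ?_ continuous_const
        exact (continuous_const.add (continuous_const_smul τ)).norm
      · intro u hu v hv s t hs ht hst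
        simp only [mem_setOf_eq] at hu hv ⊢
        have h2 : φ (s • u + t • v) ≤ s * φ u + t * φ v := by
          show ‖a + τ • (s • u + t • v)‖ ≤ s * ‖a + τ • u‖ + t * ‖a + τ • v‖
          have h3 : a + τ • (s • u + t • v) = s • (a + τ • u) + t • (a + τ • v) := by
            have : a = (s + t) • a := by rw [hst, one_smul]
            rw [smul_add, smul_add, smul_add, smul_smul, smul_smul, smul_smul, smul_smul]
            nth_rewrite 1 [this]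
            rw [add_smul, mul_comm τ s, mul_comm τ t]
            abel
          rw [h3]
          refine (norm_add_le _ _).trans_eq ?_
          rw [norm_smul, norm_smul, Real.norm_of_nonneg hs, Real.norm_of_nonneg ht]
        calc φ (s • u + t • v) ≤ s * φ u + t * φ v := h2
          _ ≤ s * (m + η) + t * (m + η) := by gcongr
          _ = m + η := by rw [← add_mul, hst, one_mul]
    have := h1 hw
    simp only [mem_setOf_eq] at this
    show φ w - m ≤ η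
    linarith

/-- The key local lemma. -/
theorem key [CompleteSpace X] (x : ℕ → X) (hx : ∀ k, ‖x k‖ ≤ 1) (x₀ : X) (b₀ : X →L[ℝ] ℝ)
    (hb₀ : ‖b₀‖ ≤ 1) (hb₀x : b₀ x₀ = ‖x₀‖) (c c' : ℝ) (hc : c' < c)
    (hfreq : ∃ᶠ k in atTop, c ≤ b₀ (x k)) (ρ : ℝ) (hρ : 0 < ρ) (e : X) (q ε : ℝ) (hε : 0 < ε) :
    ∃ z : X, ‖z - x₀‖ < ρ ∧ (¬ ∀ t : ℝ, ‖z‖ + q * t + ε * |t| ≤ ‖z + t • e‖) ∧
      ∀ b : X →L[ℝ] ℝ, ‖b‖ ≤ 1 → b z = ‖z‖ → ∀ n, ∃ k, n ≤ k ∧ c' < b (x k) := by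
  by_contra hcon
  push Not at hcon
  obtain ⟨φ, hφ, hφc⟩ := extraction_of_frequently_atTop hfreq
  have hb_le : ∀ (b : X →L[ℝ] ℝ), ‖b‖ ≤ 1 → ∀ z, b z ≤ ‖z‖ := by
    intro b hb z
    calc b z ≤ ‖b z‖ := Real.le_norm_self _
      _ ≤ ‖b‖ * ‖z‖ := b.le_opNorm _
      _ ≤ 1 * ‖z‖ := mul_le_mul_of_nonneg_right hb (norm_nonneg _)
      _ = _ := one_mul _
  let y : ℕ → X := fun k => x (φ k)
  have hy : ∀ k, ‖y k‖ ≤ 1 := fun k => hx _
  have hyc : ∀ k, c ≤ b₀ (y k) := hφc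
  let η' : ℝ := min ((c - c') / 4) 1
  have hη'0 : 0 < η' := lt_min (by linarith) one_pos
  have hη'1 : η' ≤ 1 := min_le_right _ _
  have hη'2 : η' ≤ (c - c') / 4 := min_le_left _ _
  let τ : ℝ := ρ / 4
  have hτ : 0 < τ := by positivity
  let s : ℝ := τ * η' / (‖e‖ + 1)
  have hs : 0 < s := by positivity
  have hse : s * ‖e‖ ≤ τ * η' := by
    have h1 : s * (‖e‖ + 1) = τ * η' := by
      simp only [s]
      field_simp
    nlinarith
  have hεs : 0 < ε * s := by positivity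
  obtain ⟨u, hu, m₁, hm₁⟩ := stab y hy x₀ τ hτ.le (ε * s / 8) (by positivity)
  have hu1 : ∀ k, ‖u k‖ ≤ 1 := fun k => K_ball hy k (hu k)
  obtain ⟨v, hv, m₂, hm₂⟩ := stab u hu1 (x₀ + s • e) τ hτ.le (ε * s / 8) (by positivity)
  have hv1 : ∀ k, ‖v k‖ ≤ 1 := fun k => K_ball hu1 k (hv k)
  have hvy : ∀ k, v k ∈ K y k := fun k => K_trans hu k (hv k)
  have hKv : ∀ z ∈ K v 0, c ≤ b₀ z := fun z hz =>
    le_of_K (K_trans hvy 0 hz) b₀ (fun k _ => hyc k)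
  have hm₁' : ∀ w ∈ K v 0, |‖x₀ + τ • w‖ - m₁| ≤ ε * s / 8 := fun w hw =>
    hm₁ w (K_trans hv 0 hw)
  -- transfer
  have htrans : ∀ (b : X →L[ℝ] ℝ) (d : ℝ), c' < d → (∀ n, ∃ k, n ≤ k ∧ d < b (v k)) →
      ∀ n, ∃ k, n ≤ k ∧ c' < b (x k) := by
    intro b d hd h n
    obtain ⟨k, hk, hk'⟩ := h n
    obtain ⟨j, hj, hj'⟩ := exists_of_K (hvy k) b (hd.trans hk')
    exact ⟨φ j, (hk.trans hj).trans (hφ.id_le j), hj'⟩
  -- first application
  have hA : ∀ z ∈ K v 0, ‖x₀‖ + τ * c ≤ ‖x₀ + τ • z‖ := by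
    intro z hz
    have h1 := hb_le b₀ hb₀ (x₀ + τ • z)
    rw [map_add, map_smul, smul_eq_mul, hb₀x] at h1
    have h2 := mul_le_mul_of_nonneg_left (hKv z hz) hτ.le
    linarith
  obtain ⟨w₁, hw₁, hw₁'⟩ := simons v hv1 x₀ τ hτ c ((c - c') / 2) (by linarith) hA
  have hball₁ : ‖x₀ + τ • w₁ - x₀‖ < ρ := by
    rw [add_sub_cancel_left, norm_smul, Real.norm_of_nonneg hτ.le]
    have := mul_le_mul_of_nonneg_left (K_ball hv1 0 hw₁) hτ.le
    have h2 : τ * 1 < ρ := by simp only [τ]; linarith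
    linarith
  have hH₁ : ∀ t : ℝ, ‖x₀ + τ • w₁‖ + q * t + ε * |t| ≤ ‖x₀ + τ • w₁ + t • e‖ := by
    by_contra hno
    obtain ⟨b, hb, hbz, n, hn⟩ := hcon _ hball₁ (by simpa using hno)
    obtain ⟨k, hk, hk'⟩ := htrans b (c - (c - c') / 2) (by linarith) (hw₁' b hb hbz) n
    exact absurd hk' (not_lt.2 (hn k hk))
  -- second application
  have hB : ∀ z ∈ K v 0, ‖x₀ + s • e‖ + τ * (c - 2 * η') ≤ ‖x₀ + s • e + τ • z‖ := by
    intro z hz
    have h1 := hb_le b₀ hb₀ (x₀ + s • e + τ • z)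
    rw [map_add, map_add, map_smul, map_smul, smul_eq_mul, smul_eq_mul, hb₀x] at h1
    have h2 := mul_le_mul_of_nonneg_left (hKv z hz) hτ.le
    have h3 : ‖x₀ + s • e‖ ≤ ‖x₀‖ + s * ‖e‖ := by
      refine (norm_add_le _ _).trans_eq ?_
      rw [norm_smul, Real.norm_of_nonneg hs.le]
    have h4 : -(s * ‖e‖) ≤ s * b₀ e := by
      have h5 := hb_le b₀ hb₀ (-e)
      rw [map_neg, norm_neg] at h5
      have h6 := mul_le_mul_of_nonneg_left h5 hs.le
      linarith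
    have h7 : τ * (c - 2 * η') = τ * c - 2 * (τ * η') := by ring
    rw [h7]
    linarith
  obtain ⟨w₂, hw₂, hw₂'⟩ := simons v hv1 (x₀ + s • e) τ hτ (c - 2 * η') η' hη'0 hB
  have hball₂ : ‖x₀ + s • e + τ • w₂ - x₀‖ < ρ := by
    have h1 : x₀ + s • e + τ • w₂ - x₀ = s • e + τ • w₂ := by abel
    rw [h1]
    refine (norm_add_le _ _).trans_lt ?_
    rw [norm_smul, norm_smul, Real.norm_of_nonneg hτ.le, Real.norm_of_nonneg hs.le]
    have h2 := mul_le_mul_of_nonneg_left (K_ball hv1 0 hw₂) hτ.le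
    have h3 : τ * η' ≤ τ * 1 := mul_le_mul_of_nonneg_left hη'1 hτ.le
    have h4 : 2 * τ < ρ := by simp only [τ]; linarith
    linarith
  have hH₂ : ∀ t : ℝ, ‖x₀ + s • e + τ • w₂‖ + q * t + ε * |t| ≤
      ‖x₀ + s • e + τ • w₂ + t • e‖ := by
    by_contra hno
    obtain ⟨b, hb, hbz, n, hn⟩ := hcon _ hball₂ (by simpa using hno)
    obtain ⟨k, hk, hk'⟩ := htrans b (c - 2 * η' - η') (by linarith) (hw₂' b hb hbz) n
    exact absurd hk' (not_lt.2 (hn k hk))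
  have h1 := hH₁ s
  have h2 := hH₂ (-s)
  have e1 : x₀ + τ • w₁ + s • e = x₀ + s • e + τ • w₁ := by abel
  have e2 : x₀ + s • e + τ • w₂ + (-s) • e = x₀ + τ • w₂ := by rw [neg_smul]; abel
  rw [e1, abs_of_pos hs] at h1
  rw [e2, abs_neg, abs_of_pos hs] at h2
  have a1 := abs_le.1 (hm₁' w₁ hw₁)
  have a2 := abs_le.1 (hm₁' w₂ hw₂)
  have a3 := abs_le.1 (hm₂ w₁ hw₁)
  have a4 := abs_le.1 (hm₂ w₂ hw₂)
  linarith [a1.1, a1.2, a2.1, a2.2, a3.1, a3.2, a4.1, a4.2]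

end H487.Env
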