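import Pool.Agent.H487R3.EnvB

set_option autoImplicit false

open Filter Topology Set

namespace H487.Env

variable {X : Type} [NormedAddCommGroup X] [NormedSpace ℝ X]

theorem le_norm_of {b : X →L[ℝ] ℝ} (hb : ‖b‖ ≤ 1) (z : X) : b z ≤ ‖z‖ := by
  calc b z ≤ ‖b z‖ := Real.le_norm_self _
    _ ≤ ‖b‖ * ‖z‖ := b.le_opNorm _
    _ ≤ 1 * ‖z‖ := mul_le_mul_of_nonneg_right hb (norm_nonneg _)
    _ = _ := one_mul _

/-- The sets covering the space. -/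
def T (C : ℕ → Set (X →L[ℝ] ℝ)) (v : ℕ → X) : ℕ ⊕ (ℕ × ℚ × ℕ) → Set X
  | Sum.inl n => {z | ∀ ε : ℝ, 0 < ε → ∃ b ∈ C n, ‖z‖ - ε ≤ b z}
  | Sum.inr p => {z | ∀ t : ℝ, ‖z‖ + (p.2.1 : ℝ) * t + (1 / ((p.2.2 : ℝ) + 1)) * |t| ≤
      ‖z + t • v p.1‖}

theorem T_closed (C : ℕ → Set (X →L[ℝ] ℝ)) (hC1 : ∀ n, ∀ b ∈ C n, ‖b‖ ≤ 1) (v : ℕ → X)
    (i : ℕ ⊕ (ℕ × ℚ × ℕ)) : IsClosed (T C v i) := by
  rcases i with n | p
  · rw [← isSeqClosed_iff_isClosed]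
    intro z z₀ hz hz₀ ε hε
    rw [Metric.tendsto_atTop] at hz₀
    obtain ⟨k, hk⟩ := hz₀ (ε / 3) (by positivity)
    have h1 := hk k le_rfl
    rw [dist_eq_norm] at h1
    obtain ⟨b, hb, hb'⟩ := hz k (ε / 3) (by positivity)
    refine ⟨b, hb, ?_⟩
    have h2 := le_norm_of (hC1 n b hb) (z k - z₀)
    rw [map_sub] at h2
    have h3 : ‖z₀‖ ≤ ‖z k‖ + ‖z k - z₀‖ := by
      have h4 := norm_sub_le (z k) (z k - z₀)
      rw [sub_sub_cancel] at h4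
      exact h4
    linarith
  · have : T C v (Sum.inr p) = ⋂ t : ℝ, {z | ‖z‖ + (p.2.1 : ℝ) * t + (1 / ((p.2.2 : ℝ) + 1)) * |t| ≤
      ‖z + t • v p.1‖} := by
      ext z
      simp only [T, mem_iInter, mem_setOf_eq]
    rw [this]
    refine isClosed_iInter fun t => isClosed_le ?_ ?_
    · fun_prop
    · fun_prop

theorem T_cover (C : ℕ → Set (X →L[ℝ] ℝ)) (v : ℕ → X) (hv : DenseRange v)
    (hE : ∀ φ : X →L[ℝ] ℝ, ‖φ‖ ≤ 1 →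
      (∃ z : X, ∀ ψ : X →L[ℝ] ℝ, ‖ψ‖ ≤ 1 → ψ ≠ φ → ψ z < φ z) → ∃ n, φ ∈ C n) (z : X) :
    ∃ i, z ∈ T C v i := by
  obtain ⟨b, hb, hbz⟩ := exists_dual_vector'' ℝ z
  simp only [RCLike.ofReal_real_eq_id, id_eq] at hbz
  by_cases huniq : ∀ b' : X →L[ℝ] ℝ, ‖b'‖ ≤ 1 → b' z = ‖z‖ → b' = b
  · obtain ⟨n, hn⟩ := hE b hb ⟨z, fun ψ hψ hne => by
      rw [hbz]
      refine lt_of_le_of_ne (le_norm_of hψ z) fun h => hne (huniq ψ hψ h)⟩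
    refine ⟨Sum.inl n, fun ε hε => ⟨b, hn, ?_⟩⟩
    rw [hbz]; linarith
  · push Not at huniq
    obtain ⟨b', hb', hb'z, hne⟩ := huniq
    obtain ⟨v₀, hv₀⟩ : ∃ v₀, b' v₀ ≠ b v₀ := by
      by_contra hcon
      push Not at hcon
      exact hne (ContinuousLinearMap.ext hcon)
    set d : ℝ := |b v₀ - b' v₀| / 2 with hd
    have hd0 : 0 < d := by
      have : 0 < |b v₀ - b' v₀| := abs_pos.2 (sub_ne_zero.2 (Ne.symm hv₀))
      positivity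
    set q₀ : ℝ := (b v₀ + b' v₀) / 2 with hq₀
    have h1 : ∀ t : ℝ, ‖z‖ + q₀ * t + d * |t| ≤ ‖z + t • v₀‖ := by
      intro t
      have h2 := le_norm_of hb (z + t • v₀)
      have h3 := le_norm_of hb' (z + t • v₀)
      rw [map_add, map_smul, smul_eq_mul, hbz] at h2
      rw [map_add, map_smul, smul_eq_mul, hb'z] at h3
      have h4 : d * |t| = |(b v₀ - b' v₀) * t| / 2 := by
        rw [abs_mul, hd]; ring
      rw [h4]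
      rcases abs_cases ((b v₀ - b' v₀) * t) with ⟨h5, _⟩ | ⟨h5, _⟩
      · rw [h5, hq₀]; linarith
      · rw [h5, hq₀]; linarith
    obtain ⟨j, hj⟩ : ∃ j, ‖v₀ - v j‖ < d / 4 := by
      have := Metric.denseRange_iff.1 hv v₀ (d / 4) (by positivity)
      simpa [dist_eq_norm] using this
    obtain ⟨q, hq1, hq2⟩ := exists_rat_btwn (show q₀ - d / 4 < q₀ + d / 4 by linarith)
    obtain ⟨m, hm⟩ := exists_nat_one_div_lt (show 0 < d / 2 by positivity)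
    refine ⟨Sum.inr (j, q, m), fun t => ?_⟩
    simp only
    have h2 : ‖z + t • v₀‖ ≤ ‖z + t • v j‖ + |t| * ‖v₀ - v j‖ := by
      have h3 : z + t • v₀ = (z + t • v j) + t • (v₀ - v j) := by
        rw [smul_sub]; abel
      rw [h3]
      refine (norm_add_le _ _).trans_eq ?_
      rw [norm_smul, Real.norm_eq_abs]
    have h3 : |t| * ‖v₀ - v j‖ ≤ |t| * (d / 4) := mul_le_mul_of_nonneg_left hj.le (abs_nonneg t)
    have h4 : 1 / ((m : ℝ) + 1) * |t| ≤ d / 2 * |t| := mul_le_mul_of_nonneg_right hm.le (abs_nonneg t)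
    have h5 : (q : ℝ) * t ≤ q₀ * t + d / 4 * |t| := by
      have h6 : ((q : ℝ) - q₀) * t ≤ |((q : ℝ) - q₀)| * |t| := by
        rw [← abs_mul]; exact le_abs_self _
      have h7 : |((q : ℝ) - q₀)| ≤ d / 4 := abs_le.2 ⟨by linarith, by linarith⟩
      have h8 := mul_le_mul_of_nonneg_right h7 (abs_nonneg t)
      linarith
    have := h1 t
    linarith

/-- The main contradiction. -/
theorem main_seq [CompleteSpace X] [TopologicalSpace.SeparableSpace X] (x : ℕ → X)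
    (hx : ∀ k, ‖x k‖ ≤ 1) (ξ : X →L[ℝ] ℝ) (hξ : ‖ξ‖ ≤ 1) (β r : ℝ) (hr : 0 < r)
    (hβ : ∀ k, β ≤ ξ (x k)) (C : ℕ → Set (X →L[ℝ] ℝ)) (hC1 : ∀ n, ∀ b ∈ C n, ‖b‖ ≤ 1)
    (hCatt : ∀ n z, (∀ ε : ℝ, 0 < ε → ∃ b ∈ C n, ‖z‖ - ε ≤ b z) → ∃ b ∈ C n, b z = ‖z‖)
    (hC2 : ∀ n, ∀ b ∈ C n, ∀ᶠ k in atTop, b (x k) ≤ β - r)
    (hE : ∀ φ : X →L[ℝ] ℝ, ‖φ‖ ≤ 1 →
      (∃ z : X, ∀ ψ : X →L[ℝ] ℝ, ‖ψ‖ ≤ 1 → ψ ≠ φ → ψ z < φ z) → ∃ n, φ ∈ C n) : False := by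
  let P : Set X := {z | ∃ b : X →L[ℝ] ℝ, ‖b‖ ≤ 1 ∧ b z = ‖z‖ ∧
    ∃ c, β - r < c ∧ ∃ᶠ k in atTop, c ≤ b (x k)}
  have hP0 : (0 : X) ∈ P := by
    refine ⟨ξ, hξ, by simp, β, by linarith, ?_⟩
    exact (Eventually.of_forall hβ).frequently
  let N : Set X := closure P
  have hN : IsClosed N := isClosed_closure
  have hcomp : CompleteSpace N := hN.completeSpace_coe
  have hne : Nonempty N := ⟨⟨0, subset_closure hP0⟩⟩
  let v : ℕ → X := TopologicalSpace.denseSeq X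
  have hv : DenseRange v := TopologicalSpace.denseRange_denseSeq X
  obtain ⟨i, hi⟩ := nonempty_interior_of_iUnion_of_closed
    (f := fun i => ((↑) : N → X) ⁻¹' (T C v i))
    (fun i => (T_closed C hC1 v i).preimage continuous_subtype_val) (by
      rw [eq_univ_iff_forall]
      rintro ⟨z, hz⟩
      obtain ⟨i, hi⟩ := T_cover C v hv hE z
      exact mem_iUnion.2 ⟨i, hi⟩)
  obtain ⟨z₁, hz₁⟩ := hi
  rw [mem_interior] at hz₁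
  obtain ⟨W, hWsub, hWo, hz₁W⟩ := hz₁
  obtain ⟨U, hU, rfl⟩ := isOpen_induced_iff.1 hWo
  obtain ⟨x₀, hx₀U, hx₀P⟩ := mem_closure_iff.1 z₁.2 U hU hz₁W
  obtain ⟨ρ, hρ, hball⟩ := Metric.isOpen_iff.1 hU x₀ hx₀U
  obtain ⟨b₀, hb₀, hb₀x, c, hc, hfreq⟩ := hx₀P
  have hmem : ∀ z : X, ‖z - x₀‖ < ρ → (∀ b : X →L[ℝ] ℝ, ‖b‖ ≤ 1 → b z = ‖z‖ →
      ∀ n, ∃ k, n ≤ k ∧ (β - r + c) / 2 < b (x k)) → z ∈ T C v i := by
    intro z hz hzb
    have h1 : z ∈ U := hball (by rwa [Metric.mem_ball, dist_eq_norm])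
    have h2 : z ∈ P := by
      obtain ⟨b, hb, hbz⟩ := exists_dual_vector'' ℝ z
      simp only [RCLike.ofReal_real_eq_id, id_eq] at hbz
      refine ⟨b, hb, hbz, (β - r + c) / 2, by linarith, ?_⟩
      rw [frequently_atTop]
      intro n
      obtain ⟨k, hk, hk'⟩ := hzb b hb hbz n
      exact ⟨k, hk, hk'.le⟩
    exact hWsub (show (⟨z, subset_closure h2⟩ : N) ∈ (↑) ⁻¹' U from h1)
  rcases i with n | p
  · obtain ⟨z, hz1, _, hz3⟩ := key x hx x₀ b₀ hb₀ hb₀x c ((β - r + c) / 2) (by linarith) hfreq ρ hρ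
      0 0 1 one_pos
    obtain ⟨b, hb, hbz⟩ := hCatt n z (hmem z hz1 hz3)
    obtain ⟨n₀, hn₀⟩ := eventually_atTop.1 (hC2 n b hb)
    obtain ⟨k, hk, hk'⟩ := hz3 b (hC1 n b hb) hbz n₀
    have := hn₀ k hk
    linarith
  · obtain ⟨z, hz1, hz2, hz3⟩ := key x hx x₀ b₀ hb₀ hb₀x c ((β - r + c) / 2) (by linarith) hfreq ρ
      hρ (v p.1) (p.2.1 : ℝ) (1 / ((p.2.2 : ℝ) + 1)) (by positivity)
    exact hz2 (hmem z hz1 hz3)

end H487.Env
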