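import Pool.Agent.H487R3.EnvC

set_option autoImplicit false

open Filter Topology Set

namespace H487.Env

section hull

variable {E : Type*} [AddCommGroup E] [Module ℝ E] [TopologicalSpace E] [ContinuousAdd E]
  [ContinuousSMul ℝ E]

theorem compact_hull_union {s t : Set E} (hs : IsCompact s) (ht : IsCompact t)
    (hs' : Convex ℝ s) (ht' : Convex ℝ t) : IsCompact (convexHull ℝ (s ∪ t)) := by
  rcases s.eq_empty_or_nonempty with rfl | hs0
  · rw [empty_union, ht'.convexHull_eq]; exact ht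
  rcases t.eq_empty_or_nonempty with rfl | ht0
  · rw [union_empty, hs'.convexHull_eq]; exact hs
  rw [hs'.convexHull_union ht' hs0 ht0]
  have h1 : convexJoin ℝ s t =
      (fun p : ℝ × E × E => (1 - p.1) • p.2.1 + p.1 • p.2.2) '' (Icc (0 : ℝ) 1 ×ˢ (s ×ˢ t)) := by
    ext z
    rw [mem_convexJoin]
    constructor
    · rintro ⟨a, ha, b, hb, hz⟩
      rw [segment_eq_image] at hz
      obtain ⟨θ, hθ, rfl⟩ := hz
      exact ⟨(θ, a, b), ⟨hθ, ha, hb⟩, rfl⟩
    · rintro ⟨⟨θ, a, b⟩, ⟨hθ, ha, hb⟩, rfl⟩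
      refine ⟨a, ha, b, hb, ?_⟩
      rw [segment_eq_image]
      exact ⟨θ, hθ, rfl⟩
  rw [h1]
  refine (isCompact_Icc.prod (hs.prod ht)).image ?_
  fun_prop

theorem compact_hull_iUnion (C : ℕ → Set E) (hC : ∀ n, IsCompact (C n))
    (hC' : ∀ n, Convex ℝ (C n)) (n : ℕ) :
    IsCompact (convexHull ℝ (⋃ i ∈ Finset.range n, C i)) := by
  induction n with
  | zero => simp
  | succ n ih =>
    have : (⋃ i ∈ Finset.range (n + 1), C i) = (⋃ i ∈ Finset.range n, C i) ∪ C n := by
      rw [Finset.range_add_one, Finset.set_biUnion_insert, union_comm]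
    rw [this, ← convexHull_convexHull_union_left]
    exact compact_hull_union ih (hC n) (convex_convexHull ℝ _) (hC' n)

end hull

variable {X : Type} [NormedAddCommGroup X] [NormedSpace ℝ X]

/-- Separation of a ball of the dual space from finitely many weak star compact convex sets. -/
theorem exists_sep (C : ℕ → Set (StrongDual ℝ X)) (hCc : ∀ n, Convex ℝ (C n))
    (hC1 : ∀ n, ∀ b ∈ C n, ‖b‖ ≤ 1)
    (hCcl : ∀ n, IsClosed (WeakDual.toStrongDual ⁻¹' C n : Set (WeakDual ℝ X)))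
    (ξ : StrongDual ℝ X) (r : ℝ) (hr : 0 < r)
    (hdisj : ∀ η ∈ convexHull ℝ (⋃ n, C n), r < ‖η - ξ‖) (n : ℕ) :
    ∃ x : X, ‖x‖ ≤ 1 ∧ ∀ i < n, ∀ b ∈ C i, b x ≤ ξ x - r := by
  let Cw : ℕ → Set (WeakDual ℝ X) := fun n => WeakDual.toStrongDual ⁻¹' C n
  have hCwcomp : ∀ n, IsCompact (Cw n) := by
    intro n
    have h1 : Cw n ⊆ WeakDual.toStrongDual ⁻¹' Metric.closedBall (0 : StrongDual ℝ X) 1 := by
      intro b hb
      show WeakDual.toStrongDual b ∈ Metric.closedBall (0 : StrongDual ℝ X) 1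
      rw [Metric.mem_closedBall, dist_zero_right]
      exact hC1 n _ hb
    exact (WeakDual.isCompact_closedBall (0 : StrongDual ℝ X) 1).of_isClosed_subset (hCcl n) h1
  have hCwconv : ∀ n, Convex ℝ (Cw n) := fun n =>
    (hCc n).linear_preimage (WeakDual.toStrongDual (𝕜 := ℝ) (E := X)).toLinearMap
  let S : Set (WeakDual ℝ X) := convexHull ℝ (⋃ i ∈ Finset.range n, Cw i)
  have hS : IsCompact S := compact_hull_iUnion Cw hCwcomp hCwconv n
  let T : Set (WeakDual ℝ X) := WeakDual.toStrongDual ⁻¹' Metric.closedBall ξ r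
  have hT : IsClosed T := WeakDual.isClosed_closedBall ξ r
  have hTc : Convex ℝ T :=
    (convex_closedBall ξ r).linear_preimage (WeakDual.toStrongDual (𝕜 := ℝ) (E := X)).toLinearMap
  have hST : Disjoint S T := by
    rw [Set.disjoint_left]
    intro b hbS hbT
    have h1 : WeakDual.toStrongDual b ∈ convexHull ℝ (⋃ n, C n) := by
      have h2 : S ⊆ WeakDual.toStrongDual ⁻¹' (convexHull ℝ (⋃ n, C n)) := by
        refine convexHull_min ?_ ((convex_convexHull ℝ _).linear_preimage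
          (WeakDual.toStrongDual (𝕜 := ℝ) (E := X)).toLinearMap)
        refine iUnion₂_subset fun i _ b hb => ?_
        show WeakDual.toStrongDual b ∈ convexHull ℝ (⋃ n, C n)
        exact subset_convexHull ℝ _ (mem_iUnion.2 ⟨i, hb⟩)
      exact h2 hbS
    have h3 := hdisj _ h1
    have h4 : ‖WeakDual.toStrongDual b - ξ‖ ≤ r := by
      have : WeakDual.toStrongDual b ∈ Metric.closedBall ξ r := hbT
      rwa [Metric.mem_closedBall, dist_eq_norm] at this
    linarith
  have hlc : LocallyConvexSpace ℝ (WeakDual ℝ X) :=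
    (WeakDual.withSeminorms (𝕜 := ℝ) (E := X)).toLocallyConvexSpace
  obtain ⟨f, u, v, hf1, huv, hf2⟩ := geometric_hahn_banach_compact_closed
    (convex_convexHull ℝ _) hS hTc hT hST
  obtain ⟨x, hx⟩ := LinearMap.dualEmbedding_surjective (topDualPairing ℝ X) f
  have hx' : ∀ b : WeakDual ℝ X, f b = b x := by
    intro b
    rw [← hx]; rfl
  -- the ball gives `ξ x - r ‖x‖ ≥ v`
  have hball : ∀ η : StrongDual ℝ X, ‖η‖ ≤ 1 → v < ξ x - r * η x := by
    intro η hη
    have h1 : StrongDual.toWeakDual (ξ - r • η) ∈ T := by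
      show WeakDual.toStrongDual (StrongDual.toWeakDual (ξ - r • η)) ∈ Metric.closedBall ξ r
      rw [StrongDual.toStrongDual_toWeakDual, Metric.mem_closedBall, dist_eq_norm]
      have : ξ - r • η - ξ = -(r • η) := by abel
      rw [this, norm_neg, norm_smul, Real.norm_of_nonneg hr.le]
      calc r * ‖η‖ ≤ r * 1 := mul_le_mul_of_nonneg_left hη hr.le
        _ = r := mul_one r
    have h2 := hf2 _ h1
    rw [hx'] at h2
    have h3 : v < (ξ - r • η) x := h2
    simpa using h3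
  obtain ⟨η, hη, hηx⟩ := exists_dual_vector'' ℝ x
  simp only [RCLike.ofReal_real_eq_id, id_eq] at hηx
  have hv : v < ξ x - r * ‖x‖ := by
    have := hball η hη
    rwa [hηx] at this
  rcases eq_or_ne x 0 with rfl | hx0
  · refine ⟨0, by simp, fun i hi b hb => ?_⟩
    exfalso
    have h1 : StrongDual.toWeakDual b ∈ S :=
      subset_convexHull ℝ _ (mem_iUnion₂.2 ⟨i, Finset.mem_range.2 hi, hb⟩)
    have h2 := hf1 _ h1
    rw [hx'] at h2
    simp at h2 hv
    linarith
  · have hxn : 0 < ‖x‖ := norm_pos_iff.2 hx0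
    refine ⟨‖x‖⁻¹ • x, ?_, fun i hi b hb => ?_⟩
    · rw [norm_smul, norm_inv, norm_norm, inv_mul_cancel₀ hxn.ne']
    · have h1 : StrongDual.toWeakDual b ∈ S :=
        subset_convexHull ℝ _ (mem_iUnion₂.2 ⟨i, Finset.mem_range.2 hi, hb⟩)
      have h2 := hf1 _ h1
      rw [hx'] at h2
      have h3 : b x < u := h2
      have h4 : b x ≤ ξ x - r * ‖x‖ := by linarith
      rw [map_smul, map_smul, smul_eq_mul, smul_eq_mul]
      have h5 := mul_le_mul_of_nonneg_left h4 (inv_nonneg.2 hxn.le)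
      have h6 : ‖x‖⁻¹ * (ξ x - r * ‖x‖) = ‖x‖⁻¹ * ξ x - r := by
        field_simp
      linarith

/-- The general form of the theorem. -/
theorem env_general [CompleteSpace X] [TopologicalSpace.SeparableSpace X]
    (C : ℕ → Set (StrongDual ℝ X)) (hCc : ∀ n, Convex ℝ (C n))
    (hC1 : ∀ n, ∀ b ∈ C n, ‖b‖ ≤ 1)
    (hCcl : ∀ n, IsClosed (WeakDual.toStrongDual ⁻¹' C n : Set (WeakDual ℝ X)))
    (hE : ∀ φ : X →L[ℝ] ℝ, ‖φ‖ ≤ 1 →
      (∃ z : X, ∀ ψ : X →L[ℝ] ℝ, ‖ψ‖ ≤ 1 → ψ ≠ φ → ψ z < φ z) → ∃ n, φ ∈ C n) :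
    Metric.closedBall (0 : StrongDual ℝ X) 1 ⊆ closure (convexHull ℝ (⋃ n, C n)) := by
  intro ξ hξ
  have hξ1 : ‖ξ‖ ≤ 1 := by simpa using hξ
  by_contra hcon
  obtain ⟨r, hr, hball⟩ := Metric.isOpen_iff.1 isClosed_closure.isOpen_compl ξ hcon
  have hdisj : ∀ η ∈ convexHull ℝ (⋃ n, C n), r / 2 < ‖η - ξ‖ := by
    intro η hη
    by_contra h
    push Not at h
    have h1 : η ∈ Metric.ball ξ r := by
      rw [Metric.mem_ball, dist_eq_norm]; linarith
    exact hball h1 (subset_closure hη)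
  have hr2 : 0 < r / 2 := by positivity
  choose x hx1 hx2 using exists_sep C hCc hC1 hCcl ξ (r / 2) hr2 hdisj
  -- pass to a subsequence
  have hbdd : ∀ n, ξ (x n) ∈ Icc (-1 : ℝ) 1 := by
    intro n
    have h1 := le_norm_of hξ1 (x n)
    have h2 := le_norm_of hξ1 (-x n)
    rw [map_neg, norm_neg] at h2
    exact ⟨by linarith [hx1 n], by linarith [hx1 n]⟩
  obtain ⟨a, -, φ, hφ, hlim⟩ := isCompact_Icc.tendsto_subseq hbdd
  rw [Metric.tendsto_atTop] at hlim
  obtain ⟨N, hN⟩ := hlim (r / 8) (by positivity)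
  let y : ℕ → X := fun k => x (φ (k + N))
  have hya : ∀ k, |ξ (y k) - a| < r / 8 := by
    intro k
    have := hN (k + N) (by omega)
    rwa [Real.dist_eq] at this
  refine main_seq y (fun k => hx1 _) ξ hξ1 (a - r / 8) (r / 4) (by positivity) ?_ C hC1 ?_ ?_ hE
  · intro k
    have := abs_lt.1 (hya k)
    linarith [this.1]
  · intro n z hz
    -- attainment
    let Cw : Set (WeakDual ℝ X) := WeakDual.toStrongDual ⁻¹' C n
    have hCwcomp : IsCompact Cw := by
      have h1 : Cw ⊆ WeakDual.toStrongDual ⁻¹' Metric.closedBall (0 : StrongDual ℝ X) 1 := by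
        intro b hb
        show WeakDual.toStrongDual b ∈ Metric.closedBall (0 : StrongDual ℝ X) 1
        rw [Metric.mem_closedBall, dist_zero_right]
        exact hC1 n _ hb
      exact (WeakDual.isCompact_closedBall (0 : StrongDual ℝ X) 1).of_isClosed_subset (hCcl n) h1
    have hne : Cw.Nonempty := by
      obtain ⟨b, hb, _⟩ := hz 1 one_pos
      exact ⟨StrongDual.toWeakDual b, hb⟩
    obtain ⟨b, hb, hbmax⟩ := hCwcomp.exists_isMaxOn hne
      (WeakDual.eval_continuous z).continuousOn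
    refine ⟨WeakDual.toStrongDual b, hb, ?_⟩
    refine le_antisymm (le_norm_of (hC1 n _ hb) z) ?_
    refine le_of_forall_pos_le_add fun ε hε => ?_
    obtain ⟨b', hb', hb'z⟩ := hz ε hε
    have h2 : (StrongDual.toWeakDual b') z ≤ b z := hbmax (show StrongDual.toWeakDual b' ∈ Cw from hb')
    have h3 : b' z ≤ b z := h2
    show ‖z‖ ≤ b z + ε
    linarith
  · intro n b hb
    rw [eventually_atTop]
    refine ⟨n + 1, fun k hk => ?_⟩
    have h0 : k + N ≤ φ (k + N) := hφ.id_le (k + N)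
    have h1 : n < φ (k + N) := by omega
    have h2 := hx2 (φ (k + N)) n h1 b hb
    have h3 := abs_lt.1 (hya k)
    show b (x (φ (k + N))) ≤ _
    have h4 : ξ (x (φ (k + N))) - a < r / 8 := h3.2
    linarith

end H487.Env
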