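import Pool.Agent.H487R3.EnvD

set_option autoImplicit false

open Filter Topology Set

namespace H487.Env

variable {X : Type} [NormedAddCommGroup X] [NormedSpace ℝ X]

/-- The weak star closed convex hull. -/
def wcl (A : Set (StrongDual ℝ X)) : Set (StrongDual ℝ X) :=
  {φ | ∀ F : Finset X, ∀ ε : ℝ, 0 < ε → ∃ ψ ∈ convexHull ℝ A, ∀ x ∈ F, |φ x - ψ x| < ε}

theorem subset_wcl (A : Set (StrongDual ℝ X)) : A ⊆ wcl A := by
  intro φ hφ F ε hε
  refine ⟨φ, subset_convexHull ℝ _ hφ, fun x _ => ?_⟩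
  rw [sub_self, abs_zero]
  exact hε

theorem wcl_convex (A : Set (StrongDual ℝ X)) : Convex ℝ (wcl A) := by
  intro φ₁ h₁ φ₂ h₂ a b ha hb hab F ε hε
  obtain ⟨ψ₁, hψ₁, h1⟩ := h₁ F ε hε
  obtain ⟨ψ₂, hψ₂, h2⟩ := h₂ F ε hε
  refine ⟨a • ψ₁ + b • ψ₂, convex_convexHull ℝ _ hψ₁ hψ₂ ha hb hab, fun x hx => ?_⟩
  have e : (a • φ₁ + b • φ₂) x - (a • ψ₁ + b • ψ₂) x = a * (φ₁ x - ψ₁ x) + b * (φ₂ x - ψ₂ x) := by
    show a * φ₁ x + b * φ₂ x - (a * ψ₁ x + b * ψ₂ x) = _
    ring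
  rw [e]
  have h3 : |a * (φ₁ x - ψ₁ x) + b * (φ₂ x - ψ₂ x)| ≤ a * |φ₁ x - ψ₁ x| + b * |φ₂ x - ψ₂ x| := by
    refine (abs_add_le _ _).trans_eq ?_
    rw [abs_mul, abs_mul, abs_of_nonneg ha, abs_of_nonneg hb]
  have h4 := h1 x hx
  have h5 := h2 x hx
  rcases ha.eq_or_lt with rfl | ha'
  · rw [zero_add] at hab
    subst hab
    linarith
  · have h6 : a * |φ₁ x - ψ₁ x| < a * ε := mul_lt_mul_of_pos_left h4 ha'
    have h7 : b * |φ₂ x - ψ₂ x| ≤ b * ε := mul_le_mul_of_nonneg_left h5.le hb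
    have h8 : a * ε + b * ε = ε := by rw [← add_mul, hab, one_mul]
    linarith

theorem wcl_norm {A : Set (StrongDual ℝ X)} (hA : ∀ ψ ∈ A, ‖ψ‖ ≤ 1) :
    ∀ φ ∈ wcl A, ‖φ‖ ≤ 1 := by
  have hAball : ∀ ψ ∈ convexHull ℝ A, ‖ψ‖ ≤ 1 := by
    intro ψ hψ
    have h1 : convexHull ℝ A ⊆ Metric.closedBall (0 : StrongDual ℝ X) 1 := by
      refine convexHull_min ?_ (convex_closedBall 0 1)
      intro φ hφ
      rw [Metric.mem_closedBall, dist_zero_right]
      exact hA φ hφ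
    have := h1 hψ
    rwa [Metric.mem_closedBall, dist_zero_right] at this
  intro φ hφ
  refine φ.opNorm_le_bound zero_le_one fun x => ?_
  refine le_of_forall_pos_le_add fun ε hε => ?_
  obtain ⟨ψ, hψ, h⟩ := hφ {x} ε hε
  have h1 := h x (Finset.mem_singleton_self x)
  have h2 : |ψ x| ≤ 1 * ‖x‖ := by
    calc |ψ x| = ‖ψ x‖ := rfl
      _ ≤ ‖ψ‖ * ‖x‖ := ψ.le_opNorm x
      _ ≤ 1 * ‖x‖ := mul_le_mul_of_nonneg_right (hAball ψ hψ) (norm_nonneg _)
  have h3 : |φ x| ≤ |φ x - ψ x| + |ψ x| := by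
    have := abs_add_le (φ x - ψ x) (ψ x)
    rwa [sub_add_cancel] at this
  rw [Real.norm_eq_abs]
  linarith

theorem wcl_closed (A : Set (StrongDual ℝ X)) :
    IsClosed (WeakDual.toStrongDual ⁻¹' wcl A : Set (WeakDual ℝ X)) := by
  rw [← isOpen_compl_iff, isOpen_iff_mem_nhds]
  intro φ hφ
  have h1 : ¬ ∀ F : Finset X, ∀ ε : ℝ, 0 < ε →
          ∃ ψ ∈ convexHull ℝ A, ∀ x ∈ F, |(WeakDual.toStrongDual φ) x - ψ x| < ε := hφ
  push Not at h1
  obtain ⟨F, ε, hε, h1⟩ := h1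
  have h2 : {φ' : WeakDual ℝ X | ∀ x ∈ F, |φ' x - φ x| < ε / 2} ∈ nhds φ := by
    have h3 : {φ' : WeakDual ℝ X | ∀ x ∈ F, |φ' x - φ x| < ε / 2}
        = ⋂ x ∈ F, {φ' : WeakDual ℝ X | |φ' x - φ x| < ε / 2} := by
      ext φ'; simp
    rw [h3, Filter.biInter_finset_mem]
    intro x _
    have h4 : IsOpen {φ' : WeakDual ℝ X | |φ' x - φ x| < ε / 2} := by
      refine isOpen_lt ?_ continuous_const
      exact ((WeakDual.eval_continuous x).sub continuous_const).abs
    refine h4.mem_nhds ?_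
    show |φ x - φ x| < ε / 2
    rw [sub_self, abs_zero]; positivity
  refine Filter.mem_of_superset h2 fun φ' hφ' hmem => ?_
  obtain ⟨ψ, hψ, h5⟩ := hmem F (ε / 2) (by positivity)
  obtain ⟨x, hx, h6⟩ := h1 ψ hψ
  have h7 : |φ' x - φ x| < ε / 2 := hφ' x hx
  have h8 : |φ' x - ψ x| < ε / 2 := h5 x hx
  have h9 : ε ≤ |φ x - ψ x| := h6
  have h10 : |φ x - ψ x| ≤ |φ' x - φ x| + |φ' x - ψ x| := by
    rw [abs_sub_comm (φ' x) (φ x)]
    exact abs_sub_le _ _ _
  linarith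

/-- Approximation of a functional on the dual by vectors, on finitely many functionals. -/
theorem goldstine (F : StrongDual ℝ (StrongDual ℝ X)) {ι : Type} [Fintype ι]
    (b : ι → StrongDual ℝ X) (δ : ℝ) (hδ : 0 < δ) :
    ∃ x : X, ‖x‖ ≤ ‖F‖ ∧ ∀ j, |b j x - F (b j)| < δ := by
  classical
  let L : X →ₗ[ℝ] (ι → ℝ) := LinearMap.pi fun j => (b j).toLinearMap
  let S : Set (ι → ℝ) := L '' Metric.closedBall (0 : X) ‖F‖
  let p : ι → ℝ := fun j => F (b j)
  have hS : Convex ℝ S := (convex_closedBall (0 : X) ‖F‖).linear_image L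
  by_cases hp : p ∈ closure S
  · obtain ⟨_, ⟨x, hx, rfl⟩, hdist⟩ := Metric.mem_closure_iff.1 hp δ hδ
    refine ⟨x, by simpa using hx, fun j => ?_⟩
    have h1 : dist (p j) (L x j) ≤ dist p (L x) := dist_le_pi_dist p (L x) j
    have h2 : dist (p j) (L x j) < δ := lt_of_le_of_lt h1 hdist
    rw [Real.dist_eq, abs_sub_comm] at h2
    exact h2
  · exfalso
    obtain ⟨f, u, hf1, hf2⟩ := geometric_hahn_banach_closed_point hS.closure isClosed_closure hp
    let g : StrongDual ℝ X := ∑ j, f (Pi.single j 1) • b j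
    have hfv : ∀ v : ι → ℝ, f v = ∑ j, v j * f (Pi.single j 1) := by
      intro v
      conv_lhs => rw [← Finset.univ_sum_single v, map_sum]
      refine Finset.sum_congr rfl fun j _ => ?_
      have : (Pi.single j (v j) : ι → ℝ) = v j • Pi.single j 1 := by
        rw [← Pi.single_smul]; simp
      rw [this, map_smul, smul_eq_mul]
    have hg : ∀ x, g x = f (L x) := by
      intro x
      rw [hfv]
      simp only [g, ContinuousLinearMap.sum_apply]
      refine Finset.sum_congr rfl fun j _ => ?_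
      show f (Pi.single j 1) * b j x = L x j * _
      rw [mul_comm]; rfl
    have hFg : F g = f p := by
      rw [hfv]
      simp only [g, map_sum, map_smul, smul_eq_mul]
      refine Finset.sum_congr rfl fun j _ => ?_
      rw [mul_comm]
    have h1 : ∀ x : X, ‖x‖ ≤ ‖F‖ → g x < u := by
      intro x hx
      rw [hg]
      exact hf1 _ (subset_closure ⟨x, by simpa using hx, rfl⟩)
    have hu : 0 < u := by simpa using h1 0 (by rw [norm_zero]; exact norm_nonneg F)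
    have h2 : F g ≤ ‖F‖ * ‖g‖ := (Real.le_norm_self _).trans (F.le_opNorm g)
    rcases (norm_nonneg F).eq_or_lt with h0 | h0
    · rw [← h0, zero_mul, hFg] at h2
      linarith
    · have h3 : ‖g‖ ≤ u / ‖F‖ := by
        refine g.opNorm_le_bound (by positivity) fun x => ?_
        rcases eq_or_ne x 0 with rfl | hx
        · simp
        have hxn : 0 < ‖x‖ := norm_pos_iff.2 hx
        have h4 : ∀ y : X, ‖y‖ = ‖x‖ → g y ≤ u / ‖F‖ * ‖x‖ := by
          intro y hy
          have e5 : ‖(‖F‖ / ‖x‖) • y‖ = ‖F‖ := by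
            rw [norm_smul, hy, Real.norm_of_nonneg (div_nonneg (norm_nonneg F) hxn.le),
              div_mul_cancel₀ _ hxn.ne']
          have h5 := h1 ((‖F‖ / ‖x‖) • y) e5.le
          rw [map_smul, smul_eq_mul, div_mul_eq_mul_div, div_lt_iff₀ hxn] at h5
          rw [div_mul_eq_mul_div, le_div_iff₀ h0]
          linarith
        rw [Real.norm_eq_abs, abs_le]
        constructor
        · have := h4 (-x) (norm_neg x)
          rw [map_neg] at this
          linarith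
        · exact h4 x rfl
      have h4 : ‖F‖ * ‖g‖ ≤ u := by
        rw [le_div_iff₀ h0] at h3
        linarith
      rw [hFg] at h2
      linarith

end H487.Env
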