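import Pool.Agent.H487R3.EnvE

set_option autoImplicit false

open Filter Topology Set

namespace H487.Env

variable {X : Type} [NormedAddCommGroup X] [NormedSpace ℝ X]

/-- `A` is covered by countably many weak star closed convex subsets of the dual ball on which
`F ≤ θ`. -/
def Cov (F : StrongDual ℝ (StrongDual ℝ X)) (θ : ℝ) (A : Set (StrongDual ℝ X)) : Prop :=
  ∃ L : ℕ → Set (StrongDual ℝ X), (∀ n, Convex ℝ (L n) ∧
    IsClosed (WeakDual.toStrongDual ⁻¹' L n : Set (WeakDual ℝ X)) ∧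
    ∀ b ∈ L n, ‖b‖ ≤ 1 ∧ F b ≤ θ) ∧ A ⊆ ⋃ n, L n

theorem Cov.mono {F : StrongDual ℝ (StrongDual ℝ X)} {θ : ℝ} {A B : Set (StrongDual ℝ X)}
    (h : Cov F θ B) (hAB : A ⊆ B) : Cov F θ A := by
  obtain ⟨L, h1, h2⟩ := h
  exact ⟨L, h1, hAB.trans h2⟩

theorem Cov.empty (F : StrongDual ℝ (StrongDual ℝ X)) (θ : ℝ) : Cov F θ ∅ :=
  ⟨fun _ => ∅, fun _ => ⟨convex_empty, by simp, by simp⟩, by simp⟩

theorem Cov.iUnion {F : StrongDual ℝ (StrongDual ℝ X)} {θ : ℝ} {A : ℕ → Set (StrongDual ℝ X)}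
    (h : ∀ n, Cov F θ (A n)) : Cov F θ (⋃ n, A n) := by
  choose L h1 h2 using h
  refine ⟨fun k => L (Nat.unpair k).1 (Nat.unpair k).2, fun k => h1 _ _, ?_⟩
  refine iUnion_subset fun n => (h2 n).trans ?_
  refine iUnion_subset fun m => ?_
  intro b hb
  refine mem_iUnion.2 ⟨Nat.pair n m, ?_⟩
  rwa [Nat.unpair_pair]

theorem Cov.biUnion {F : StrongDual ℝ (StrongDual ℝ X)} {θ : ℝ} {ι : Type} {T : Set ι}
    (hT : T.Countable) {A : ι → Set (StrongDual ℝ X)} (h : ∀ i ∈ T, Cov F θ (A i)) :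
    Cov F θ (⋃ i ∈ T, A i) := by
  rcases T.eq_empty_or_nonempty with rfl | hne
  · simpa using Cov.empty F θ
  obtain ⟨f, hf⟩ := hT.exists_eq_range hne
  have : (⋃ i ∈ T, A i) = ⋃ n, A (f n) := by
    rw [hf, biUnion_range]
  rw [this]
  refine Cov.iUnion fun n => h _ ?_
  rw [hf]; exact ⟨n, rfl⟩

theorem Cov.union {F : StrongDual ℝ (StrongDual ℝ X)} {θ : ℝ} {A B : Set (StrongDual ℝ X)}
    (hA : Cov F θ A) (hB : Cov F θ B) : Cov F θ (A ∪ B) := by
  have : A ∪ B ⊆ ⋃ n : ℕ, (if n = 0 then A else B) := by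
    intro b hb
    rcases hb with hb | hb
    · exact mem_iUnion.2 ⟨0, by simpa using hb⟩
    · exact mem_iUnion.2 ⟨1, by simpa using hb⟩
  refine Cov.mono (Cov.iUnion fun n => ?_) this
  split_ifs <;> assumption

/-- The points of `A` all of whose weak star neighbourhoods meet `A` in a non-covered set. -/
def core (F : StrongDual ℝ (StrongDual ℝ X)) (θ : ℝ) (A : Set (StrongDual ℝ X)) :
    Set (StrongDual ℝ X) :=
  {b | b ∈ A ∧ ∀ U : Set (WeakDual ℝ X), IsOpen U → StrongDual.toWeakDual b ∈ U →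
    ¬ Cov F θ (A ∩ StrongDual.toWeakDual ⁻¹' U)}

theorem not_cov_core [TopologicalSpace.SeparableSpace X] {F : StrongDual ℝ (StrongDual ℝ X)}
    {θ : ℝ} {A : Set (StrongDual ℝ X)} (hA1 : ∀ b ∈ A, ‖b‖ ≤ 1) (hA : ¬ Cov F θ A) :
    ¬ Cov F θ (core F θ A) := by
  intro hc
  apply hA
  let Bw : Set (WeakDual ℝ X) := WeakDual.toStrongDual ⁻¹' Metric.closedBall (0 : StrongDual ℝ X) 1
  have hBw : IsCompact Bw := WeakDual.isCompact_closedBall (0 : StrongDual ℝ X) 1
  have hmet : TopologicalSpace.MetrizableSpace Bw := WeakDual.metrizable_of_isCompact ℝ X Bw hBw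
  have hcs : CompactSpace Bw := isCompact_iff_compactSpace.1 hBw
  let _ : MetricSpace Bw := TopologicalSpace.metrizableSpaceMetric Bw
  have hsc : SecondCountableTopology Bw := inferInstance
  let ι : Type := {U : Set (WeakDual ℝ X) // IsOpen U ∧ Cov F θ (A ∩ StrongDual.toWeakDual ⁻¹' U)}
  obtain ⟨T, hT, hTU⟩ := TopologicalSpace.isOpen_iUnion_countable
    (fun i : ι => ((↑) : Bw → WeakDual ℝ X) ⁻¹' i.1)
    (fun i => i.2.1.preimage continuous_subtype_val)
  have h1 : A ⊆ core F θ A ∪ ⋃ i ∈ T, (A ∩ StrongDual.toWeakDual ⁻¹' i.1) := by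
    intro b hb
    by_cases hbc : b ∈ core F θ A
    · exact Or.inl hbc
    · right
      have h2 : ¬ ∀ U : Set (WeakDual ℝ X), IsOpen U → StrongDual.toWeakDual b ∈ U →
          ¬ Cov F θ (A ∩ StrongDual.toWeakDual ⁻¹' U) := fun h => hbc ⟨hb, h⟩
      push Not at h2
      obtain ⟨U, hU, hbU, hUc⟩ := h2
      have hbB : StrongDual.toWeakDual b ∈ Bw := by
        show b ∈ Metric.closedBall (0 : StrongDual ℝ X) 1
        rw [Metric.mem_closedBall, dist_zero_right]
        exact hA1 b hb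
      have h3 : (⟨StrongDual.toWeakDual b, hbB⟩ : Bw) ∈
          ⋃ i : ι, ((↑) : Bw → WeakDual ℝ X) ⁻¹' i.1 :=
        mem_iUnion.2 ⟨⟨U, hU, hUc⟩, hbU⟩
      rw [← hTU] at h3
      obtain ⟨i, hi, hbi⟩ := mem_iUnion₂.1 h3
      exact mem_iUnion₂.2 ⟨i, hi, hb, hbi⟩
  exact (hc.union (Cov.biUnion hT fun i _ => i.2.2)).mono h1

/-- The sets of the tree. -/
def V (p q : ℝ) (n : ℕ) (x : ℕ → X) (s : Fin n → Bool) : Set (StrongDual ℝ X) :=
  {b | ∀ i : Fin n, if s i then q < b (x i) else b (x i) < p}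

theorem tree_step [TopologicalSpace.SeparableSpace X] {F : StrongDual ℝ (StrongDual ℝ X)}
    {α d : ℝ} (hd : 0 < d) {S : Set (StrongDual ℝ X)} (hS1 : ∀ b ∈ S, ‖b‖ ≤ 1)
    (hSF : ∀ b ∈ S, F b ≤ α) (n : ℕ) (x : ℕ → X)
    (hQ : ∀ s : Fin n → Bool, ¬ Cov F (α + 4 * d) (S ∩ V (α + d) (α + 2 * d) n x s)) :
    ∃ y : X, ‖y‖ ≤ ‖F‖ ∧ ∀ s : Fin n → Bool,
      (¬ Cov F (α + 4 * d) ((S ∩ V (α + d) (α + 2 * d) n x s) ∩ {b | b y < α + d})) ∧
      ¬ Cov F (α + 4 * d) ((S ∩ V (α + d) (α + 2 * d) n x s) ∩ {b | α + 2 * d < b y}) := by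
  classical
  let A : (Fin n → Bool) → Set (StrongDual ℝ X) := fun s => S ∩ V (α + d) (α + 2 * d) n x s
  have hA1 : ∀ s, ∀ b ∈ A s, ‖b‖ ≤ 1 := fun s b hb => hS1 b hb.1
  have hcore : ∀ s, ¬ Cov F (α + 4 * d) (core F (α + 4 * d) (A s)) := fun s =>
    not_cov_core (hA1 s) (hQ s)
  have h0 : ∀ s, ∃ b, b ∈ core F (α + 4 * d) (A s) := by
    intro s
    by_contra h
    push Not at h
    apply hcore s
    rw [Set.eq_empty_of_forall_notMem h]
    exact Cov.empty _ _
  have h1 : ∀ s, ∃ b, b ∈ wcl (core F (α + 4 * d) (A s)) ∧ α + 4 * d < F b := by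
    intro s
    by_contra h
    push Not at h
    apply hcore s
    refine ⟨fun _ => wcl (core F (α + 4 * d) (A s)), fun _ => ⟨wcl_convex _, wcl_closed _,
      fun b hb => ⟨wcl_norm (fun ψ hψ => hA1 s ψ hψ.1) b hb, h b hb⟩⟩, ?_⟩
    exact (subset_wcl _).trans (subset_iUnion (fun _ : ℕ => wcl (core F (α + 4 * d) (A s))) 0)
  choose b₀ hb₀ using h0
  choose b₁ hb₁ hb₁F using h1
  obtain ⟨y, hy, hyb⟩ := goldstine F (ι := (Fin n → Bool) × Bool)
    (fun p => if p.2 then b₁ p.1 else b₀ p.1) d hd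
  refine ⟨y, hy, fun s => ⟨?_, ?_⟩⟩
  · have h2 := hyb (s, false)
    simp only [Bool.false_eq_true, if_false] at h2
    have h3 := hSF (b₀ s) (hb₀ s).1.1
    have h4 : b₀ s y < α + d := by linarith [(abs_lt.1 h2).2]
    have hU : IsOpen {b : WeakDual ℝ X | b y < α + d} :=
      isOpen_lt (WeakDual.eval_continuous y) continuous_const
    exact (hb₀ s).2 _ hU h4
  · have h2 := hyb (s, true)
    simp only [if_true] at h2
    have h3 : α + 3 * d < b₁ s y := by linarith [(abs_lt.1 h2).1, hb₁F s]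
    obtain ⟨ψ, hψ, h4⟩ := hb₁ s {y} d hd
    have h5 : α + 2 * d < ψ y := by
      have := h4 y (Finset.mem_singleton_self y)
      linarith [(abs_lt.1 this).2]
    obtain ⟨c, hc, hcy⟩ : ∃ c ∈ core F (α + 4 * d) (A s), α + 2 * d < c y := by
      by_contra hcon
      push Not at hcon
      have h6 : convexHull ℝ (core F (α + 4 * d) (A s)) ⊆ {b | b y ≤ α + 2 * d} := by
        refine convexHull_min hcon ?_
        intro φ₁ h₁ φ₂ h₂ a b ha hb hab
        show a * φ₁ y + b * φ₂ y ≤ α + 2 * d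
        have e1 : a * φ₁ y ≤ a * (α + 2 * d) := mul_le_mul_of_nonneg_left h₁ ha
        have e2 : b * φ₂ y ≤ b * (α + 2 * d) := mul_le_mul_of_nonneg_left h₂ hb
        have e3 : a * (α + 2 * d) + b * (α + 2 * d) = α + 2 * d := by
          rw [← add_mul, hab, one_mul]
        linarith
      have h7 : ψ y ≤ α + 2 * d := h6 hψ
      linarith
    have hU : IsOpen {b : WeakDual ℝ X | α + 2 * d < b y} :=
      isOpen_lt continuous_const (WeakDual.eval_continuous y)
    exact hc.2 _ hU hcy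

/-- Failure of the covering property gives a bounded sequence with independent behaviour. -/
theorem exists_tree [TopologicalSpace.SeparableSpace X] {F : StrongDual ℝ (StrongDual ℝ X)}
    {α d : ℝ} (hd : 0 < d) {S : Set (StrongDual ℝ X)} (hS1 : ∀ b ∈ S, ‖b‖ ≤ 1)
    (hSF : ∀ b ∈ S, F b ≤ α) (hS : ¬ Cov F (α + 4 * d) S) :
    ∃ x : ℕ → X, (∀ n, ‖x n‖ ≤ ‖F‖) ∧ ∀ (n : ℕ) (s : Fin n → Bool),
      ∃ b : StrongDual ℝ X, ‖b‖ ≤ 1 ∧ ∀ i : Fin n,
        if s i then α + 2 * d < b (x i) else b (x i) < α + d := by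
  classical
  let Q : ℕ → (ℕ → X) → Prop := fun n x =>
    ∀ s : Fin n → Bool, ¬ Cov F (α + 4 * d) (S ∩ V (α + d) (α + 2 * d) n x s)
  have step : ∀ n x, ∃ y : X, ‖y‖ ≤ ‖F‖ ∧ (Q n x → Q (n + 1) (Function.update x n y)) := by
    intro n x
    by_cases hQ : Q n x
    · obtain ⟨y, hy, h⟩ := tree_step hd hS1 hSF n x hQ
      refine ⟨y, hy, fun _ s => ?_⟩
      have hupd : ∀ i : Fin n, Function.update x n y (i : ℕ) = x i := fun i =>
        Function.update_of_ne (by have := i.2; omega) _ _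
      have hV : ∀ b, b ∈ V (α + d) (α + 2 * d) n x (fun i => s i.castSucc) →
          (if s (Fin.last n) then α + 2 * d < b y else b y < α + d) →
          b ∈ V (α + d) (α + 2 * d) (n + 1) (Function.update x n y) s := by
        intro b hb hlast i
        refine Fin.lastCases ?_ (fun i => ?_) i
        · simpa using hlast
        · have := hb i
          simp only [Fin.val_castSucc]
          rw [hupd i]
          exact this
      obtain ⟨g0, g1⟩ := h (fun i => s i.castSucc)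
      cases hs : s (Fin.last n)
      · intro hc
        refine g0 (hc.mono ?_)
        rintro b ⟨⟨hb1, hb2⟩, hb3⟩
        refine ⟨hb1, hV b hb2 ?_⟩
        rw [hs]; simpa using hb3
      · intro hc
        refine g1 (hc.mono ?_)
        rintro b ⟨⟨hb1, hb2⟩, hb3⟩
        refine ⟨hb1, hV b hb2 ?_⟩
        rw [hs]; simpa using hb3
    · exact ⟨0, by rw [norm_zero]; exact norm_nonneg F, fun h => absurd h hQ⟩
  choose Y hY hYQ using step
  let x : ℕ → (ℕ → X) := fun n => Nat.rec (fun _ => 0) (fun n x => Function.update x n (Y n x)) n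
  have hx0 : x 0 = fun _ => 0 := rfl
  have hxs : ∀ n, x (n + 1) = Function.update (x n) n (Y n (x n)) := fun n => rfl
  have hQ : ∀ n, Q n (x n) := by
    intro n
    induction n with
    | zero =>
      intro s hc
      apply hS
      refine hc.mono fun b hb => ⟨hb, fun i => i.elim0⟩
    | succ n ih => rw [hxs]; exact hYQ n _ ih
  have hstab : ∀ m n, m < n → x n m = Y m (x m) := by
    intro m n hmn
    induction n with
    | zero => omega
    | succ n ih =>
      rw [hxs]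
      rcases Nat.lt_succ_iff_lt_or_eq.1 hmn with h | h
      · rw [Function.update_of_ne (by omega), ih h]
      · subst h
        rw [Function.update_self]
  refine ⟨fun m => Y m (x m), fun m => hY _ _, fun n s => ?_⟩
  have h1 := hQ n s
  obtain ⟨b, hb⟩ : (S ∩ V (α + d) (α + 2 * d) n (x n) s).Nonempty := by
    rw [Set.nonempty_iff_ne_empty]
    intro h
    apply h1
    rw [h]
    exact Cov.empty _ _
  refine ⟨b, hS1 b hb.1, fun i => ?_⟩
  have := hb.2 i
  rw [hstab i n i.2] at this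
  exact this

/-- A bounded sequence with independent behaviour spans a copy of `ℓ¹`. -/
theorem exists_l1 [CompleteSpace X] (x : ℕ → X) (R : ℝ) (hR : ∀ n, ‖x n‖ ≤ R) (p q d : ℝ)
    (hd : 0 < d) (hpq : p + d ≤ q)
    (h : ∀ (n : ℕ) (s : Fin n → Bool), ∃ b : StrongDual ℝ X, ‖b‖ ≤ 1 ∧ ∀ i : Fin n,
        if s i then q < b (x i) else b (x i) < p) :
    ∃ T : (lp (fun _ : ℕ => ℝ) 1) →L[ℝ] X, ∃ c : ℝ, 0 < c ∧ ∀ a, c * ‖a‖ ≤ ‖T a‖ := by
  have hR0 : 0 ≤ R := (norm_nonneg _).trans (hR 0)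
  have hnorm : ∀ a : lp (fun _ : ℕ => ℝ) 1, HasSum (fun n => ‖a n‖) ‖a‖ := by
    intro a
    have h1 : Summable (fun n => ‖a n‖) := by
      simpa using (lp.memℓp a).summable (by simp)
    have h2 : ‖a‖ = ∑' n, ‖a n‖ := by
      rw [lp.norm_eq_tsum_rpow (by simp)]
      simp
    rw [h2]
    exact h1.hasSum
  have hb : ∀ (a : lp (fun _ : ℕ => ℝ) 1) (n : ℕ), ‖a n • x n‖ ≤ ‖a n‖ * R := by
    intro a n
    rw [norm_smul]
    exact mul_le_mul_of_nonneg_left (hR n) (norm_nonneg _)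
  have hsum : ∀ a : lp (fun _ : ℕ => ℝ) 1, Summable (fun n => a n • x n) := fun a =>
    Summable.of_norm_bounded ((hnorm a).mul_right R).summable (hb a)
  let T₀ : lp (fun _ : ℕ => ℝ) 1 →ₗ[ℝ] X :=
    { toFun := fun a => ∑' n, a n • x n
      map_add' := fun a b => by
        rw [← (hsum a).tsum_add (hsum b)]
        refine tsum_congr fun n => ?_
        rw [← add_smul]; rfl
      map_smul' := fun c a => by
        rw [RingHom.id_apply, ← tsum_const_smul'']
        refine tsum_congr fun n => ?_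
        rw [smul_smul]; rfl }
  have hT₀ : ∀ a, ‖T₀ a‖ ≤ R * ‖a‖ := by
    intro a
    rw [mul_comm]
    exact tsum_of_norm_bounded ((hnorm a).mul_right R) (hb a)
  refine ⟨T₀.mkContinuous R hT₀, d / 2, by positivity, fun a => ?_⟩
  show d / 2 * ‖a‖ ≤ ‖T₀ a‖
  have h1 : Tendsto (fun n => ‖∑ i ∈ Finset.range n, a i • x i‖) atTop (𝓝 ‖T₀ a‖) :=
    (hsum a).hasSum.tendsto_sum_nat.norm
  have h2 : Tendsto (fun n => d / 2 * ∑ i ∈ Finset.range n, ‖a i‖) atTop (𝓝 (d / 2 * ‖a‖)) :=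
    (hnorm a).tendsto_sum_nat.const_mul _
  refine le_of_tendsto_of_tendsto' h2 h1 fun n => ?_
  obtain ⟨b, hb1, hb2⟩ := h n (fun i => decide (0 ≤ a i))
  obtain ⟨b', hb1', hb2'⟩ := h n (fun i => !decide (0 ≤ a i))
  set z : X := ∑ i ∈ Finset.range n, a i • x i with hz
  have h3 : b z - b' z ≤ 2 * ‖z‖ := by
    have e1 := le_norm_of hb1 z
    have e2 := le_norm_of hb1' (-z)
    rw [map_neg, norm_neg] at e2
    linarith
  have h4 : b z - b' z = ∑ i ∈ Finset.range n, a i * (b (x i) - b' (x i)) := by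
    rw [hz, map_sum, map_sum, ← Finset.sum_sub_distrib]
    refine Finset.sum_congr rfl fun i _ => ?_
    rw [map_smul, map_smul, smul_eq_mul, smul_eq_mul]
    ring
  have h5 : ∑ i ∈ Finset.range n, d * ‖a i‖ ≤ ∑ i ∈ Finset.range n, a i * (b (x i) - b' (x i)) := by
    refine Finset.sum_le_sum fun i hi => ?_
    have hi' := Finset.mem_range.1 hi
    have e1 := hb2 ⟨i, hi'⟩
    have e2 := hb2' ⟨i, hi'⟩
    simp only at e1 e2
    by_cases ha : 0 ≤ a i
    · simp only [ha, decide_true, if_true, Bool.not_true, Bool.false_eq_true, if_false] at e1 e2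
      rw [Real.norm_of_nonneg ha, mul_comm]
      exact mul_le_mul_of_nonneg_left (by linarith) ha
    · simp only [ha, decide_false, if_true, Bool.not_false, Bool.false_eq_true, if_false] at e1 e2
      push Not at ha
      rw [Real.norm_of_nonpos ha.le]
      nlinarith
  rw [← Finset.mul_sum] at h5
  linarith

end H487.Env
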