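import Mathlib

namespace Pool.Agent.H487R3.LorA

open Finset

variable {𝕜 : Type*} [RCLike 𝕜] {X : Type*} [NormedAddCommGroup X] [NormedSpace 𝕜 X]

/-- `(x, xs)` is a basis in the sense of the problem: biorthogonal, dense span, total, bounded. -/
structure IsBasis (x : ℕ → X) (xs : ℕ → (X →L[𝕜] 𝕜)) : Prop where
  biorth : ∀ n k, xs n (x k) = if n = k then 1 else 0
  dense : Dense ((Submodule.span 𝕜 (Set.range x) : Submodule 𝕜 X) : Set X)
  total : ∀ f, (∀ n, xs n f = 0) → f = 0
  bdd : ∃ K : ℝ, ∀ n, ‖x n‖ ≤ K ∧ ‖xs n‖ ≤ K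

/-- `A` is a greedy set for `f`. -/
def IsGreedySet (xs : ℕ → (X →L[𝕜] 𝕜)) (f : X) (A : Finset ℕ) : Prop :=
  ∀ n ∈ A, ∀ k, k ∉ A → ‖xs k f‖ ≤ ‖xs n f‖

/-- The basis is quasi-greedy. -/
def IsQuasiGreedy (x : ℕ → X) (xs : ℕ → (X →L[𝕜] 𝕜)) : Prop :=
  ∃ C : ℝ, ∀ (f : X) (A : Finset ℕ), IsGreedySet xs f A → ‖∑ n ∈ A, xs n f • x n‖ ≤ C * ‖f‖

/-- The lower democracy function. -/
noncomputable def lowerDem (𝕜 : Type*) [RCLike 𝕜] {X : Type*} [NormedAddCommGroup X]
    [NormedSpace 𝕜 X] (x : ℕ → X) (m : ℕ) : ℝ :=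
  if m = 0 then 0 else
    sInf {t : ℝ | ∃ (A : Finset ℕ) (ε : ℕ → 𝕜), m ≤ A.card ∧ (∀ n, ‖ε n‖ = 1) ∧
      t = ‖∑ n ∈ A, ε n • x n‖}

lemma lowerDem_zero (x : ℕ → X) : lowerDem 𝕜 x 0 = 0 := by simp [lowerDem]

lemma lowerDem_nonneg (x : ℕ → X) (m : ℕ) : 0 ≤ lowerDem 𝕜 x m := by
  unfold lowerDem
  split_ifs
  · exact le_rfl
  · apply Real.sInf_nonneg
    rintro t ⟨A, ε, -, -, rfl⟩
    exact norm_nonneg _

lemma lowerDem_mono (x : ℕ → X) : Monotone (lowerDem 𝕜 x) := by
  intro m m' h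
  by_cases hm : m = 0
  · rw [hm, lowerDem_zero]; exact lowerDem_nonneg x m'
  · have hm' : m' ≠ 0 := by omega
    unfold lowerDem
    rw [if_neg hm, if_neg hm']
    apply csInf_le_csInf
    · refine ⟨0, ?_⟩
      rintro t ⟨A, ε, -, -, rfl⟩
      exact norm_nonneg _
    · exact ⟨_, Finset.range m', fun _ => 1, by simp, by simp, rfl⟩
    · rintro t ⟨A, ε, h1, h2, rfl⟩
      exact ⟨A, ε, h.trans h1, h2, rfl⟩

lemma lowerDem_le (x : ℕ → X) (A : Finset ℕ) (ε : ℕ → 𝕜) (hε : ∀ n ∈ A, ‖ε n‖ = 1) :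
    lowerDem 𝕜 x A.card ≤ ‖∑ n ∈ A, ε n • x n‖ := by
  classical
  unfold lowerDem
  split_ifs with h
  · exact norm_nonneg _
  · apply csInf_le
    · refine ⟨0, ?_⟩
      rintro t ⟨A, ε, -, -, rfl⟩
      exact norm_nonneg _
    · refine ⟨A, fun n => if n ∈ A then ε n else 1, le_rfl, ?_, ?_⟩
      · intro n
        by_cases hn : n ∈ A
        · simp [hn, hε n hn]
        · simp [hn]
      · congr 1
        apply Finset.sum_congr rfl
        intro n hn
        simp [hn]

/-- Coefficients tend to zero. -/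
lemma IsBasis.fin {x : ℕ → X} {xs : ℕ → (X →L[𝕜] 𝕜)} (h : IsBasis x xs) (f : X) (α : ℝ)
    (hα : 0 < α) : {n | α ≤ ‖xs n f‖}.Finite := by
  obtain ⟨K, hK⟩ := h.bdd
  have hK0 : 0 ≤ K := (norm_nonneg _).trans (hK 0).1
  obtain ⟨g, hg, hgf⟩ := Metric.dense_iff.1 h.dense f (α / (K + 1)) (by positivity)
  have hg' : g ∈ Submodule.span 𝕜 (Set.range x) := hgf
  rw [Metric.mem_ball] at hg
  have hfin : {n | xs n g ≠ 0}.Finite := by
    refine Submodule.span_induction (p := fun g _ => {n | xs n g ≠ 0}.Finite) ?_ ?_ ?_ ?_ hg'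
    · rintro _ ⟨k, rfl⟩
      apply (Set.finite_singleton k).subset
      intro n hn
      simp only [Set.mem_ofPred_eq, h.biorth] at hn
      by_contra hne
      exact hn (if_neg hne)
    · simp
    · intro a b _ _ ha hb
      apply (ha.union hb).subset
      intro n hn
      simp only [Set.mem_ofPred_eq, map_add] at hn
      by_contra hne
      simp only [Set.mem_union, Set.mem_ofPred_eq, not_or, not_not] at hne
      exact hn (by rw [hne.1, hne.2, add_zero])
    · intro c a _ ha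
      apply ha.subset
      intro n hn
      simp only [Set.mem_ofPred_eq, map_smul, smul_eq_mul] at hn
      exact right_ne_zero_of_mul hn
  apply hfin.subset
  intro n hn
  simp only [Set.mem_ofPred_eq] at hn ⊢
  intro h0
  have h1 : xs n f = xs n (f - g) := by rw [map_sub, h0, sub_zero]
  rw [h1] at hn
  have h2 : ‖xs n (f - g)‖ ≤ K * ‖f - g‖ :=
    ((xs n).le_opNorm _).trans (mul_le_mul_of_nonneg_right (hK n).2 (norm_nonneg _))
  have h3 : ‖f - g‖ < α / (K + 1) := by
    rw [← dist_eq_norm, dist_comm]; exact hg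
  have h4 : K * ‖f - g‖ ≤ (K + 1) * ‖f - g‖ :=
    mul_le_mul_of_nonneg_right (by linarith) (norm_nonneg _)
  have h5 : (K + 1) * ‖f - g‖ < α := by
    rw [lt_div_iff₀ (by positivity)] at h3
    linarith
  linarith

/-- The Abel summation lemma. -/
lemma abel (v : ℕ → X) (B : ℝ) : ∀ (N : ℕ) (A : Finset ℕ) (h : ℕ → ℝ) (c : ℝ), A.card ≤ N → 0 ≤ c →
    (∀ n ∈ A, 0 ≤ h n ∧ h n ≤ c) →
    (∀ s > 0, ‖∑ n ∈ A.filter (fun n => s ≤ h n), v n‖ ≤ B) →
    ‖∑ n ∈ A, (h n : 𝕜) • v n‖ ≤ c * B := by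
  intro N
  induction N with
  | zero =>
    intro A h c hA hc h1 h2
    have hB : 0 ≤ B := (norm_nonneg _).trans (h2 1 one_pos)
    have : A = ∅ := by
      rw [← Finset.card_eq_zero]; omega
    subst this
    simpa using mul_nonneg hc hB
  | succ N ih =>
    intro A h c hA hc h1 h2
    have hB : 0 ≤ B := (norm_nonneg _).trans (h2 1 one_pos)
    rcases A.eq_empty_or_nonempty with rfl | hne
    · simpa using mul_nonneg hc hB
    obtain ⟨n0, hn0, hmin⟩ := A.exists_min_image h hne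
    set m := h n0 with hm
    have hm0 : 0 ≤ m := (h1 n0 hn0).1
    have hmc : m ≤ c := (h1 n0 hn0).2
    set A' := A.filter (fun n => m < h n) with hA'
    have hcard : A'.card ≤ N := by
      have : A'.card < A.card := by
        apply Finset.card_lt_card
        rw [Finset.ssubset_iff_of_subset (Finset.filter_subset _ _)]
        exact ⟨n0, hn0, by simp [hm]⟩
      omega
    have key := ih A' (fun n => h n - m) (c - m) hcard (by linarith) (by
      intro n hn
      rw [hA', Finset.mem_filter] at hn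
      have := h1 n hn.1
      exact ⟨by linarith [hn.2], by linarith⟩) (by
      intro s hs
      have : A'.filter (fun n => s ≤ h n - m) = A.filter (fun n => s + m ≤ h n) := by
        ext n
        simp only [hA', Finset.mem_filter]
        constructor
        · rintro ⟨⟨a1, a2⟩, a3⟩
          exact ⟨a1, by linarith⟩
        · rintro ⟨a1, a2⟩
          exact ⟨⟨a1, by linarith⟩, by linarith⟩
      rw [this]
      exact h2 (s + m) (by linarith))
    have hsplit : ∑ n ∈ A, (h n : 𝕜) • v n = (m : 𝕜) • ∑ n ∈ A, v n +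
        ∑ n ∈ A', (((h n - m : ℝ)) : 𝕜) • v n := by
      have e1 : ∑ n ∈ A', (((h n - m : ℝ)) : 𝕜) • v n = ∑ n ∈ A, (((h n - m : ℝ)) : 𝕜) • v n := by
        apply Finset.sum_subset (Finset.filter_subset _ _)
        intro n hn hn'
        have : h n = m := by
          apply le_antisymm _ (hmin n hn)
          by_contra hcon
          push Not at hcon
          exact hn' (Finset.mem_filter.2 ⟨hn, hcon⟩)
        simp [this]
      rw [e1, Finset.smul_sum, ← Finset.sum_add_distrib]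
      apply Finset.sum_congr rfl
      intro n _
      rw [← add_smul]
      congr 1
      push_cast
      ring
    rw [hsplit]
    have hfirst : ‖(m : 𝕜) • ∑ n ∈ A, v n‖ ≤ m * B := by
      rw [norm_smul, RCLike.norm_ofReal, abs_of_nonneg hm0]
      rcases hm0.eq_or_lt with h0 | h0
      · rw [← h0]; simp
      · apply mul_le_mul_of_nonneg_left _ hm0
        have : A.filter (fun n => m ≤ h n) = A := by
          apply Finset.filter_true_of_mem
          intro n hn
          exact hmin n hn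
        have h3 := h2 m h0
        rwa [this] at h3
    calc ‖(m : 𝕜) • ∑ n ∈ A, v n + ∑ n ∈ A', (((h n - m : ℝ)) : 𝕜) • v n‖
        ≤ m * B + (c - m) * B := (norm_add_le _ _).trans (add_le_add hfirst key)
      _ = c * B := by ring

end Pool.Agent.H487R3.LorA
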