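import Mathlib
import Pool.Agent.H487R3.LorA

namespace Pool.Agent.H487R3.LorA

open Finset

variable {𝕜 : Type*} [RCLike 𝕜] {X : Type*} [NormedAddCommGroup X] [NormedSpace 𝕜 X]

/-- The working hypotheses on the basis. -/
structure QG (x : ℕ → X) (xs : ℕ → (X →L[𝕜] 𝕜)) (C : ℝ) : Prop where
  biorth : ∀ n k, xs n (x k) = if n = k then 1 else 0
  fin : ∀ f, ∀ α : ℝ, 0 < α → {n | α ≤ ‖xs n f‖}.Finite
  qg : ∀ f (A : Finset ℕ), IsGreedySet xs f A → ‖∑ n ∈ A, xs n f • x n‖ ≤ C * ‖f‖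

lemma QG.one_le {x : ℕ → X} {xs : ℕ → (X →L[𝕜] 𝕜)} {C : ℝ} (h : QG x xs C) : 1 ≤ C := by
  have h0 : x 0 ≠ 0 := by
    intro h0
    have := h.biorth 0 0
    rw [h0] at this
    simp at this
  have h1 := h.qg (x 0) {0} (by
    intro n hn k hk
    rw [Finset.mem_singleton] at hn hk
    subst hn
    rw [h.biorth, if_neg hk, h.biorth, if_pos rfl]
    simp)
  rw [Finset.sum_singleton, h.biorth, if_pos rfl, one_smul] at h1
  have h2 : 0 < ‖x 0‖ := norm_pos_iff.2 h0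
  by_contra hcon
  push Not at hcon
  nlinarith

/-- The set of coefficients of size at least `α`. -/
noncomputable def lvl (xs : ℕ → (X →L[𝕜] 𝕜)) (f : X) (α : ℝ) : Finset ℕ :=
  open Classical in
  if h : {n | α ≤ ‖xs n f‖}.Finite then h.toFinset else ∅

variable {x : ℕ → X} {xs : ℕ → (X →L[𝕜] 𝕜)} {C : ℝ}

lemma QG.mem_lvl (h : QG x xs C) {f : X} {α : ℝ} (hα : 0 < α) {n : ℕ} :
    n ∈ lvl xs f α ↔ α ≤ ‖xs n f‖ := by
  unfold lvl
  rw [dif_pos (h.fin f α hα)]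
  simp

/-- truncation -/
noncomputable def U (x : ℕ → X) (xs : ℕ → (X →L[𝕜] 𝕜)) (f : X) (α : ℝ) : X :=
  f - ∑ n ∈ lvl xs f α, ((1 - α / ‖xs n f‖ : ℝ) : 𝕜) • (xs n f • x n)

lemma QG.sum_norm (h : QG x xs C) (f : X) {α : ℝ} (hα : 0 < α) :
    ‖∑ n ∈ lvl xs f α, ((1 - α / ‖xs n f‖ : ℝ) : 𝕜) • (xs n f • x n)‖ ≤ C * ‖f‖ := by
  have := abel (𝕜 := 𝕜) (fun n => xs n f • x n) (C * ‖f‖) (lvl xs f α).card (lvl xs f α)
    (fun n => 1 - α / ‖xs n f‖) 1 le_rfl zero_le_one (by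
      intro n hn
      rw [h.mem_lvl hα] at hn
      have hpos : 0 < ‖xs n f‖ := lt_of_lt_of_le hα hn
      constructor
      · have : α / ‖xs n f‖ ≤ 1 := (div_le_one hpos).2 hn
        linarith
      · have : 0 ≤ α / ‖xs n f‖ := by positivity
        linarith) (by
      intro s hs
      apply h.qg
      intro n hn k hk
      rw [Finset.mem_filter, h.mem_lvl hα] at hn hk
      by_contra hcon
      push Not at hcon
      apply hk
      have hpos : 0 < ‖xs n f‖ := lt_of_lt_of_le hα hn.1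
      refine ⟨hn.1.trans hcon.le, hn.2.trans ?_⟩
      have : α / ‖xs k f‖ ≤ α / ‖xs n f‖ := div_le_div_of_nonneg_left hα.le hpos hcon.le
      linarith)
  rwa [one_mul] at this

lemma QG.U_norm (h : QG x xs C) (f : X) {α : ℝ} (hα : 0 < α) :
    ‖U x xs f α‖ ≤ (1 + C) * ‖f‖ := by
  unfold U
  calc _ ≤ ‖f‖ + _ := norm_sub_le _ _
    _ ≤ ‖f‖ + C * ‖f‖ := by gcongr; exact h.sum_norm f hα
    _ = _ := by ring

lemma QG.lvl_greedy (h : QG x xs C) (f : X) {α : ℝ} (hα : 0 < α) :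
    IsGreedySet xs f (lvl xs f α) := by
  intro n hn k hk
  rw [h.mem_lvl hα] at hn hk
  push Not at hk
  exact hk.le.trans hn

/-- The weak-type estimate. -/
lemma QG.weak (h : QG x xs C) (f : X) {α : ℝ} (hα : 0 < α) :
    α * lowerDem 𝕜 x (lvl xs f α).card ≤ 2 * C * ‖f‖ := by
  have h1 := lowerDem_le (𝕜 := 𝕜) x (lvl xs f α) (fun n => ((‖xs n f‖⁻¹ : ℝ) : 𝕜) * xs n f) (by
    intro n hn
    rw [h.mem_lvl hα] at hn
    have hpos : 0 < ‖xs n f‖ := lt_of_lt_of_le hα hn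
    rw [norm_mul, RCLike.norm_ofReal, abs_of_nonneg (by positivity), inv_mul_cancel₀ hpos.ne'])
  have h2 : (α : 𝕜) • ∑ n ∈ lvl xs f α, (((‖xs n f‖⁻¹ : ℝ) : 𝕜) * xs n f) • x n =
      ∑ n ∈ lvl xs f α, xs n f • x n -
        ∑ n ∈ lvl xs f α, ((1 - α / ‖xs n f‖ : ℝ) : 𝕜) • (xs n f • x n) := by
    rw [Finset.smul_sum, ← Finset.sum_sub_distrib]
    apply Finset.sum_congr rfl
    intro n _
    rw [smul_smul, smul_smul, ← sub_smul]
    congr 1
    push_cast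
    rw [div_eq_mul_inv]
    ring
  have h3 : ‖(α : 𝕜) • ∑ n ∈ lvl xs f α, (((‖xs n f‖⁻¹ : ℝ) : 𝕜) * xs n f) • x n‖ ≤
      2 * C * ‖f‖ := by
    rw [h2]
    calc _ ≤ C * ‖f‖ + C * ‖f‖ :=
          (norm_sub_le _ _).trans (add_le_add (h.qg f _ (h.lvl_greedy f hα)) (h.sum_norm f hα))
      _ = _ := by ring
  rw [norm_smul, RCLike.norm_ofReal, abs_of_pos hα] at h3
  exact (mul_le_mul_of_nonneg_left h1 hα.le).trans h3

lemma QG.U_coef (h : QG x xs C) (f : X) {α : ℝ} (hα : 0 < α) (n : ℕ) :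
    xs n (U x xs f α) = ((min ‖xs n f‖ α / ‖xs n f‖ : ℝ) : 𝕜) * xs n f := by
  unfold U
  rw [map_sub, map_sum]
  have e : ∀ k ∈ lvl xs f α, xs n (((1 - α / ‖xs k f‖ : ℝ) : 𝕜) • (xs k f • x k)) =
      if n = k then ((1 - α / ‖xs k f‖ : ℝ) : 𝕜) * xs k f else 0 := by
    intro k _
    rw [map_smul, map_smul, h.biorth]
    split_ifs <;> simp
  rw [Finset.sum_congr rfl e, Finset.sum_ite_eq]
  by_cases hn : n ∈ lvl xs f α
  · rw [if_pos hn]
    rw [h.mem_lvl hα] at hn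
    have hpos : 0 < ‖xs n f‖ := lt_of_lt_of_le hα hn
    rw [min_eq_right hn]
    push_cast
    ring
  · rw [if_neg hn]
    rw [h.mem_lvl hα] at hn
    push Not at hn
    rw [min_eq_left hn.le, sub_zero]
    by_cases h0 : xs n f = 0
    · simp [h0]
    · rw [div_self (norm_ne_zero_iff.2 h0)]
      simp

/-- dyadic averages -/
noncomputable def avg (𝕂 : Type*) [RCLike 𝕂] {E : Type*} [AddCommGroup E] [Module 𝕂 E]
    (y : ℕ → E) (p a : ℕ) : E :=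
  ((((2 : ℝ) ^ p)⁻¹ : ℝ) : 𝕂) • ∑ i ∈ Finset.range (2 ^ p), y (a + i)

lemma avg_real (c : ℕ → ℝ) (p a : ℕ) :
    avg ℝ c p a = ((2 : ℝ) ^ p)⁻¹ * ∑ i ∈ Finset.range (2 ^ p), c (a + i) := rfl

lemma avg_succ (𝕂 : Type*) [RCLike 𝕂] {E : Type*} [AddCommGroup E] [Module 𝕂 E]
    (y : ℕ → E) (p a : ℕ) :
    avg 𝕂 y (p + 1) a = (((1 / 2 : ℝ)) : 𝕂) • (avg 𝕂 y p a + avg 𝕂 y p (a + 2 ^ p)) := by
  unfold avg
  rw [← smul_add, smul_smul]
  have : (2 : ℕ) ^ (p + 1) = 2 ^ p + 2 ^ p := by ring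
  rw [this, Finset.sum_range_add]
  congr 1
  · rw [pow_succ]
    push_cast
    field_simp
  · congr 1
    apply Finset.sum_congr rfl
    intro i _
    rw [add_assoc]

lemma QG.avg_coef (h : QG x xs C) (f : X) {α : ℕ → ℝ} (hα : ∀ i, 0 < α i) (n p a : ℕ) :
    xs n (avg 𝕜 (fun i => U x xs f (α i)) p a) =
      ((avg ℝ (fun i => min ‖xs n f‖ (α i)) p a / ‖xs n f‖ : ℝ) : 𝕜) * xs n f := by
  unfold avg
  rw [map_smul, map_sum]
  simp_rw [h.U_coef f (hα _)]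
  rw [← Finset.sum_mul, smul_eq_mul, ← mul_assoc]
  congr 1
  rw [RCLike.ofReal_real_eq_id, id, smul_eq_mul, mul_div_assoc, Finset.sum_div]
  push_cast
  rfl

/-- Averages of a decreasing lacunary-dominated sequence. -/
lemma avg_lower (c : ℕ → ℝ) (hc0 : ∀ i, 0 ≤ c i) (β : ℝ) (p a i0 : ℕ) (h1 : a + 2 ^ p ≤ i0)
    (h2 : ∀ i ≤ i0, β ≤ c i) : β / 2 ≤ avg ℝ c (p + 1) a := by
  rw [avg_real]
  have e1 : ∑ i ∈ Finset.range (2 ^ p), c (a + i) ≤ ∑ i ∈ Finset.range (2 ^ (p + 1)), c (a + i) := by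
    apply Finset.sum_le_sum_of_subset_of_nonneg
    · intro i
      simp only [Finset.mem_range]
      intro hi
      exact lt_of_lt_of_le hi (Nat.pow_le_pow_right (by norm_num) (by omega))
    · intro i _ _
      exact hc0 _
  have e2 : (2 : ℝ) ^ p * β ≤ ∑ i ∈ Finset.range (2 ^ p), c (a + i) := by
    have := Finset.card_nsmul_le_sum (Finset.range (2 ^ p)) (fun i => c (a + i)) β (by
      intro i hi
      rw [Finset.mem_range] at hi
      exact h2 _ (by omega))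
    simpa using this
  have h3 : (0 : ℝ) < 2 ^ p := by positivity
  rw [pow_succ, mul_inv, div_eq_mul_inv]
  calc β * 2⁻¹ = ((2 : ℝ) ^ p)⁻¹ * 2⁻¹ * (2 ^ p * β) := by field_simp
    _ ≤ _ := by gcongr; exact e2.trans e1

lemma avg_diff_lower (c α : ℕ → ℝ) (hc : Antitone c) (hcα : ∀ i, c i ≤ α i)
    (hα : Antitone α) (hlac : ∀ i, α (i + 1) ≤ α i / 2) (p a i0 : ℕ) (h1 : a + 2 ^ p ≤ i0)
    (h3 : i0 < a + 2 ^ (p + 1))
    (h2 : ∀ i ≤ i0, α i0 ≤ c i) :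
    α i0 / 4 ≤ avg ℝ c (p + 1) a - avg ℝ c (p + 1) (a + 2 ^ (p + 1)) := by
  rw [avg_real, avg_real, ← mul_sub, ← Finset.sum_sub_distrib]
  have e1 : ∑ i ∈ Finset.range (2 ^ p), (c (a + i) - c (a + 2 ^ (p + 1) + i)) ≤
      ∑ i ∈ Finset.range (2 ^ (p + 1)), (c (a + i) - c (a + 2 ^ (p + 1) + i)) := by
    apply Finset.sum_le_sum_of_subset_of_nonneg
    · intro i
      simp only [Finset.mem_range]
      intro hi
      exact lt_of_lt_of_le hi (Nat.pow_le_pow_right (by norm_num) (by omega))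
    · intro i _ _
      have := hc (show a + i ≤ a + 2 ^ (p + 1) + i by omega)
      linarith
  have e2 : (2 : ℝ) ^ p * (α i0 / 2) ≤
      ∑ i ∈ Finset.range (2 ^ p), (c (a + i) - c (a + 2 ^ (p + 1) + i)) := by
    have := Finset.card_nsmul_le_sum (Finset.range (2 ^ p))
      (fun i => c (a + i) - c (a + 2 ^ (p + 1) + i)) (α i0 / 2) (by
      intro i hi
      rw [Finset.mem_range] at hi
      have e3 := h2 (a + i) (by omega)
      have e4 : c (a + 2 ^ (p + 1) + i) ≤ α i0 / 2 :=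
        (hcα _).trans ((hα (show i0 + 1 ≤ a + 2 ^ (p + 1) + i by omega)).trans (hlac i0))
      linarith)
    simpa using this
  have h3 : (0 : ℝ) < 2 ^ p := by positivity
  rw [pow_succ, mul_inv]
  calc α i0 / 4 = ((2 : ℝ) ^ p)⁻¹ * 2⁻¹ * (2 ^ p * (α i0 / 2)) := by field_simp; norm_num
    _ ≤ ((2 : ℝ) ^ p)⁻¹ * 2⁻¹ *
      ∑ i ∈ Finset.range (2 ^ (p + 1)), (c (a + i) - c (a + 2 ^ (p + 1) + i)) := by
        gcongr; exact e2.trans e1
    _ = _ := by rw [pow_succ]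

/-- The many large levels statement. -/
def S (x : ℕ → X) (xs : ℕ → (X →L[𝕜] 𝕜)) (m : ℕ) (t : ℝ) : Prop :=
  ∃ f : X, ‖f‖ ≤ 1 ∧ ∃ α : ℕ → ℝ, (∀ i, 0 < α i) ∧ (∀ i, α (i + 1) ≤ α i / 2) ∧
    ∀ i < m, t ≤ α i * lowerDem 𝕜 x (lvl xs f (α i)).card

lemma S.mono {m m' : ℕ} {t : ℝ} (h : m ≤ m') (hS : S x xs m' t) : S x xs m t := by
  obtain ⟨f, hf, α, h1, h2, h3⟩ := hS
  exact ⟨f, hf, α, h1, h2, fun i hi => h3 i (hi.trans_le h)⟩

lemma QG.S_of (h : QG x xs C) {f g : X} {α : ℕ → ℝ} (hα : ∀ i, 0 < α i)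
    (hlac : ∀ i, α (i + 1) ≤ α i / 2) {c t : ℝ} (hc : 0 < c) (hg : ‖g‖ ≤ c / 2) (s m : ℕ)
    (hlv : ∀ i < m, ∀ n, α (s + i) ≤ ‖xs n f‖ → c * α (s + i) ≤ ‖xs n g‖)
    (ht : ∀ i < m, t ≤ α (s + i) * lowerDem 𝕜 x (lvl xs f (α (s + i))).card) :
    S x xs m (2 * t) := by
  refine ⟨((2 / c : ℝ) : 𝕜) • g, ?_, fun i => 2 * α (s + i), fun i => by have := hα (s + i); linarith,
    fun i => by
      have := hlac (s + i)
      show 2 * α (s + (i + 1)) ≤ 2 * α (s + i) / 2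
      rw [← add_assoc]; linarith, ?_⟩
  · rw [norm_smul, RCLike.norm_ofReal, abs_of_pos (by positivity)]
    calc 2 / c * ‖g‖ ≤ 2 / c * (c / 2) := by gcongr
      _ = 1 := by field_simp
  · intro i hi
    have h1 := ht i hi
    have h2 : (lvl xs f (α (s + i))).card ≤ (lvl xs (((2 / c : ℝ) : 𝕜) • g) (2 * α (s + i))).card := by
      apply Finset.card_le_card
      intro n hn
      rw [h.mem_lvl (hα _)] at hn
      rw [h.mem_lvl (by have := hα (s + i); linarith)]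
      have h3 := hlv i hi n hn
      rw [map_smul, norm_smul, RCLike.norm_ofReal, abs_of_pos (by positivity)]
      calc 2 * α (s + i) = 2 / c * (c * α (s + i)) := by field_simp
        _ ≤ _ := by gcongr
    have h4 := lowerDem_mono (𝕜 := 𝕜) x h2
    have h5 := hα (s + i)
    calc 2 * t ≤ 2 * (α (s + i) * lowerDem 𝕜 x (lvl xs f (α (s + i))).card) := by linarith
      _ ≤ 2 * (α (s + i) * lowerDem 𝕜 x (lvl xs (((2 / c : ℝ) : 𝕜) • g) (2 * α (s + i))).card) := by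
        gcongr
      _ = _ := by ring

end Pool.Agent.H487R3.LorA
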