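import Mathlib
import Pool.Agent.H487R3.LorB

namespace Pool.Agent.H487R3.LorA

open Finset

variable {𝕜 : Type*} [RCLike 𝕜] {X : Type*} [NormedAddCommGroup X] [NormedSpace 𝕜 X]
variable {x : ℕ → X} {xs : ℕ → (X →L[𝕜] 𝕜)} {C : ℝ}

/-- uniform convexity in midpoint form, for all radii at most `R`. -/
lemma uc_step {Y : Type*} [NormedAddCommGroup Y] [NormedSpace 𝕜 Y] [UniformConvexSpace Y]
    {ε R : ℝ} (hε : 0 < ε) (hR : 0 < R) : ∃ η : ℝ, 0 < η ∧ η < 1 ∧ ∀ ρ : ℝ, 0 < ρ → ρ ≤ R →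
      ∀ u v : Y, ‖u‖ ≤ ρ → ‖v‖ ≤ ρ → ε ≤ ‖u - v‖ →
        ‖((1 / 2 : ℝ) : 𝕜) • (u + v)‖ ≤ (1 - η) * ρ := by
  let _ : NormedSpace ℝ Y := NormedSpace.restrictScalars ℝ 𝕜 Y
  obtain ⟨δ, hδ, h⟩ := exists_forall_closed_ball_dist_add_le_two_sub Y (show 0 < ε / R by positivity)
  refine ⟨min (δ / 2) (1 / 2), by positivity, by
    have := min_le_right (δ / 2) (1 / 2); linarith, ?_⟩
  intro ρ hρ hρR u v hu hv huv
  have e0 : ∀ w : Y, ‖(ρ⁻¹ : ℝ) • w‖ = ρ⁻¹ * ‖w‖ := by
    intro w; rw [norm_smul, Real.norm_of_nonneg (by positivity)]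
  have h1 := @h ((ρ⁻¹ : ℝ) • u) (by
    rw [e0, inv_mul_le_iff₀ hρ, mul_one]; exact hu) ((ρ⁻¹ : ℝ) • v) (by
    rw [e0, inv_mul_le_iff₀ hρ, mul_one]; exact hv) (by
    rw [← smul_sub, e0, ← div_eq_inv_mul]
    calc ε / R ≤ ε / ρ := div_le_div_of_nonneg_left hε.le hρ hρR
      _ ≤ _ := by gcongr)
  rw [← smul_add, e0, inv_mul_le_iff₀ hρ] at h1
  rw [norm_smul, RCLike.norm_ofReal, abs_of_pos (by norm_num)]
  have h2 := min_le_left (δ / 2) (1 / 2)
  nlinarith

/-- The self-improvement step. -/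
lemma QG.key (h : QG x xs C) {Y : Type*} [NormedAddCommGroup Y] [NormedSpace 𝕜 Y]
    [UniformConvexSpace Y] (T : X ≃L[𝕜] Y) :
    ∃ L : ℕ, ∀ (q : ℕ) (t : ℝ), S x xs (2 ^ (q + 1 + L)) t → S x xs (2 ^ q) (2 * t) := by
  have hC := h.one_le
  set T' : X →L[𝕜] Y := T.toContinuousLinearMap with hT'
  set T'' : Y →L[𝕜] X := T.symm.toContinuousLinearMap with hT''
  set c2 : ℝ := ‖T''‖ + 1 with hc2
  have hc2pos : 0 < c2 := by positivity
  have hinv : ∀ f : X, ‖f‖ ≤ c2 * ‖T' f‖ := by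
    intro f
    have h1 : f = T'' (T' f) := by simp [hT', hT'']
    calc ‖f‖ = ‖T'' (T' f)‖ := by rw [← h1]
      _ ≤ ‖T''‖ * ‖T' f‖ := T''.le_opNorm _
      _ ≤ c2 * ‖T' f‖ := by gcongr; linarith
  set R : ℝ := ‖T'‖ * (1 + C) + 1 with hR
  have hRpos : 0 < R := by positivity
  set ε : ℝ := 1 / (8 * c2) with hε
  have hεpos : 0 < ε := by positivity
  obtain ⟨η, hη0, hη1, hUC⟩ := uc_step (𝕜 := 𝕜) (Y := Y) hεpos hRpos
  obtain ⟨L, hL⟩ := exists_pow_lt_of_lt_one (show 0 < 1 / (4 * c2 * R) by positivity)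
    (show 1 - η < 1 by linarith)
  refine ⟨L, ?_⟩
  intro q t hS
  by_contra hno
  obtain ⟨f, hf, α, hα, hlac, hb⟩ := hS
  have hαanti : Antitone α := by
    apply antitone_nat_of_succ_le
    intro i
    have := hlac i; have := hα i; linarith
  set y : ℕ → X := fun i => U x xs f (α i) with hy
  -- coefficients
  have hmin0 : ∀ n i, 0 ≤ min ‖xs n f‖ (α i) := fun n i => le_min (norm_nonneg _) (hα i).le
  have hcoef : ∀ n, xs n f ≠ 0 → ∀ r : ℝ, ‖((r / ‖xs n f‖ : ℝ) : 𝕜) * xs n f‖ = |r| := by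
    intro n hn r
    have : ‖xs n f‖ ≠ 0 := norm_ne_zero_iff.2 hn
    rw [norm_mul, RCLike.norm_ofReal, abs_div, abs_of_nonneg (norm_nonneg (xs n f))]
    field_simp
  -- (i) differences are large
  have hdiff : ∀ p a, q ≤ p → a + 2 ^ (p + 1) ≤ 2 ^ (q + 1 + L) →
      1 / 8 < ‖avg 𝕜 y (p + 1) a - avg 𝕜 y (p + 1) (a + 2 ^ (p + 1))‖ := by
    intro p a hp ha
    by_contra hcon
    push Not at hcon
    apply hno
    have h2p : (2 : ℕ) ^ (p + 1) = 2 ^ p + 2 ^ p := by ring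
    refine S.mono (Nat.pow_le_pow_right (by norm_num) hp)
      (h.S_of (f := f) (α := α) (c := 1 / 4)
        (g := avg 𝕜 y (p + 1) a - avg 𝕜 y (p + 1) (a + 2 ^ (p + 1))) hα hlac (by norm_num)
        (by linarith) (a + 2 ^ p) (2 ^ p) ?_ ?_)
    · intro i hi n hn
      have hne : xs n f ≠ 0 := by
        rw [← norm_ne_zero_iff]
        exact ((hα _).trans_le hn).ne'
      rw [map_sub, h.avg_coef f hα, h.avg_coef f hα, ← sub_mul, ← RCLike.ofReal_sub, ← sub_div,
        hcoef n hne]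
      have := avg_diff_lower (fun i => min ‖xs n f‖ (α i)) α
        (fun i j hij => min_le_min_left _ (hαanti hij)) (fun i => min_le_right _ _) hαanti hlac
        p a (a + 2 ^ p + i) (by omega) (by omega) (by
          intro j hj
          exact le_min hn (hαanti hj))
      calc 1 / 4 * α (a + 2 ^ p + i) = α (a + 2 ^ p + i) / 4 := by ring
        _ ≤ _ := this
        _ ≤ _ := le_abs_self _
    · intro i hi
      apply hb
      omega
  -- (ii) norms shrink
  have hshrink : ∀ j a, a + 2 ^ (q + 1 + j) ≤ 2 ^ (q + 1 + L) →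
      ‖T' (avg 𝕜 y (q + 1 + j) a)‖ ≤ (1 - η) ^ j * R := by
    intro j
    induction j with
    | zero =>
      intro a _
      have hall : ∀ p a, ‖T' (avg 𝕜 y p a)‖ ≤ R := by
        intro p
        induction p with
        | zero =>
          intro a
          have : avg 𝕜 y 0 a = y a := by simp [avg]
          rw [this]
          calc ‖T' (y a)‖ ≤ ‖T'‖ * ‖y a‖ := T'.le_opNorm _
            _ ≤ ‖T'‖ * ((1 + C) * ‖f‖) := by gcongr; exact h.U_norm f (hα a)
            _ ≤ ‖T'‖ * ((1 + C) * 1) := by gcongr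
            _ ≤ R := by rw [hR]; linarith
        | succ p ih =>
          intro a
          rw [avg_succ, map_smul, map_add, norm_smul, RCLike.norm_ofReal,
            abs_of_pos (by norm_num)]
          have h1 := norm_add_le (T' (avg 𝕜 y p a)) (T' (avg 𝕜 y p (a + 2 ^ p)))
          have h2 := ih a
          have h3 := ih (a + 2 ^ p)
          linarith
      simpa using hall (q + 1) a
    | succ j ih =>
      intro a ha
      have h2p : (2 : ℕ) ^ (q + 1 + (j + 1)) = 2 ^ (q + 1 + j) + 2 ^ (q + 1 + j) := by ring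
      rw [h2p] at ha
      have hpos2 : 0 < 2 ^ (q + 1 + j) := by positivity
      have h1 := ih a (by omega)
      have h2 := ih (a + 2 ^ (q + 1 + j)) (by omega)
      have h3 := hdiff (q + j) a (by omega) (by
        rw [show q + j + 1 = q + 1 + j by ring]; omega)
      rw [show q + j + 1 = q + 1 + j by ring] at h3
      have hpw : 0 < (1 - η) ^ j := by
        apply pow_pos; linarith
      have hpw1 : (1 - η) ^ j ≤ 1 := pow_le_one₀ (by linarith) (by linarith)
      have h4 := hUC ((1 - η) ^ j * R) (by positivity) (by nlinarith) _ _ h1 h2 (by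
        rw [← map_sub, hε]
        have := hinv (avg 𝕜 y (q + 1 + j) a - avg 𝕜 y (q + 1 + j) (a + 2 ^ (q + 1 + j)))
        rw [div_le_iff₀ (by positivity)]
        nlinarith)
      rw [show q + 1 + (j + 1) = (q + 1 + j) + 1 by ring, avg_succ, map_smul, map_add]
      calc _ ≤ _ := h4
        _ = _ := by ring
  -- (iii) the final average
  have hM := hshrink L 0 (by simp)
  have hM' : ‖avg 𝕜 y (q + 1 + L) 0‖ ≤ (1 / 2) / 2 := by
    calc _ ≤ c2 * ‖T' (avg 𝕜 y (q + 1 + L) 0)‖ := hinv _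
      _ ≤ c2 * ((1 - η) ^ L * R) := by gcongr
      _ ≤ c2 * (1 / (4 * c2 * R) * R) := by gcongr
      _ = (1 / 2) / 2 := by field_simp; norm_num
  apply hno
  have h2p : (2 : ℕ) ^ (q + 1 + L) = 2 ^ (q + L) + 2 ^ (q + L) := by ring
  refine S.mono (Nat.pow_le_pow_right (by norm_num) (show q ≤ q + L by omega))
      (h.S_of (f := f) (α := α) (c := 1 / 2)
        (g := avg 𝕜 y (q + 1 + L) 0) hα hlac (by norm_num)
        hM' (2 ^ (q + L)) (2 ^ (q + L)) ?_ ?_)
  · intro i hi n hn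
    have hne : xs n f ≠ 0 := by
      rw [← norm_ne_zero_iff]
      exact ((hα _).trans_le hn).ne'
    rw [h.avg_coef f hα, hcoef n hne, show q + 1 + L = (q + L) + 1 by ring]
    have := avg_lower (fun i => min ‖xs n f‖ (α i)) (hmin0 n) (α (2 ^ (q + L) + i)) (q + L) 0
      (2 ^ (q + L) + i) (by omega) (by
          intro j hj
          exact le_min hn (hαanti hj))
    calc 1 / 2 * α (2 ^ (q + L) + i) = α (2 ^ (q + L) + i) / 2 := by ring
      _ ≤ _ := this
      _ ≤ _ := le_abs_self _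
  · intro i hi
    apply hb
    omega

end Pool.Agent.H487R3.LorA
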