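import Mathlib
import Pool.Agent.H487R3.LorC

namespace Pool.Agent.H487R3.LorA

open Finset
open scoped ENNReal

variable {𝕜 : Type*} [RCLike 𝕜] {X : Type*} [NormedAddCommGroup X] [NormedSpace 𝕜 X]
variable {x : ℕ → X} {xs : ℕ → (X →L[𝕜] 𝕜)} {C : ℝ}

lemma exists_enum (I : Finset ℤ) : ∃ κ : ℕ → ℤ, StrictAnti κ ∧ ∀ i < I.card, κ i ∈ I := by
  induction I using Finset.induction_on_min with
  | empty => exact ⟨fun i => -i, by intro i j h; simpa using h, by simp⟩
  | insert a s ha ih =>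
    obtain ⟨κ, hκ, hmem⟩ := ih
    have hnot : a ∉ s := fun h => lt_irrefl _ (ha a h)
    refine ⟨fun i => if i < s.card then κ i else a - ((i : ℤ) - s.card), ?_, ?_⟩
    · intro i j hij
      show (if j < s.card then κ j else a - ((j : ℤ) - s.card)) <
        (if i < s.card then κ i else a - ((i : ℤ) - s.card))
      by_cases h1 : j < s.card
      · rw [if_pos h1, if_pos (by omega)]
        exact hκ hij
      · rw [if_neg h1]
        by_cases h2 : i < s.card
        · rw [if_pos h2]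
          have := ha _ (hmem i h2)
          omega
        · rw [if_neg h2]
          omega
    · intro i hi
      rw [Finset.card_insert_of_notMem hnot] at hi
      by_cases h1 : i < s.card
      · simp only [if_pos h1]
        exact Finset.mem_insert_of_mem (hmem i h1)
      · have : i = s.card := by omega
        simp [this]

lemma QG.iter (h : QG x xs C) {L : ℕ}
    (hL : ∀ (q : ℕ) (t : ℝ), S x xs (2 ^ (q + 1 + L)) t → S x xs (2 ^ q) (2 * t)) :
    ∀ (j : ℕ) (t : ℝ), S x xs (2 ^ (j * (L + 1))) t → 2 ^ j * t ≤ 2 * C := by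
  have hC := h.one_le
  intro j
  induction j with
  | zero =>
    intro t hS
    obtain ⟨f, hf, α, hα, -, hb⟩ := hS
    have h1 := hb 0 (by simp)
    have h2 := h.weak f (hα 0)
    have : 2 * C * ‖f‖ ≤ 2 * C * 1 := by gcongr
    simp only [pow_zero, one_mul]
    linarith
  | succ j ih =>
    intro t hS
    rw [show (j + 1) * (L + 1) = j * (L + 1) + 1 + L by ring] at hS
    have := ih _ (hL _ _ hS)
    rw [pow_succ]
    linarith

/-- the level functional -/
noncomputable def bb (x : ℕ → X) (xs : ℕ → (X →L[𝕜] 𝕜)) (f : X) (k : ℤ) : ℝ :=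
  (2 : ℝ) ^ k * lowerDem 𝕜 x (lvl xs f ((2 : ℝ) ^ k)).card

lemma bb_nonneg (f : X) (k : ℤ) : 0 ≤ bb x xs f k :=
  mul_nonneg (by positivity) (lowerDem_nonneg _ _)

lemma QG.card_bound (h : QG x xs C) {L : ℕ}
    (hL : ∀ (q : ℕ) (t : ℝ), S x xs (2 ^ (q + 1 + L)) t → S x xs (2 ^ q) (2 * t))
    {f : X} (hf : f ≠ 0) (I : Finset ℤ) (τ : ℝ) (hI : ∀ k ∈ I, τ ≤ bb x xs f k) (j : ℕ)
    (hj : 2 ^ (j * (L + 1)) ≤ I.card) : 2 ^ j * τ ≤ 2 * C * ‖f‖ := by
  have hf0 : 0 < ‖f‖ := norm_pos_iff.2 hf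
  obtain ⟨κ, hκ, hmem⟩ := exists_enum I
  have hS : S x xs (2 ^ (j * (L + 1))) (τ / ‖f‖) := by
    refine ⟨((‖f‖⁻¹ : ℝ) : 𝕜) • f, ?_, fun i => (2 : ℝ) ^ (κ i) / ‖f‖, fun i => by positivity, ?_, ?_⟩
    · rw [norm_smul, RCLike.norm_ofReal, abs_of_pos (by positivity), inv_mul_cancel₀ hf0.ne']
    · intro i
      show (2 : ℝ) ^ (κ (i + 1)) / ‖f‖ ≤ (2 : ℝ) ^ (κ i) / ‖f‖ / 2
      have h1 : (2 : ℝ) ^ (κ (i + 1)) ≤ (2 : ℝ) ^ (κ i - 1) := by
        apply zpow_le_zpow_right₀ (by norm_num)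
        have := hκ (show i < i + 1 by omega)
        omega
      rw [zpow_sub_one₀ (by norm_num)] at h1
      calc (2 : ℝ) ^ (κ (i + 1)) / ‖f‖ ≤ ((2 : ℝ) ^ (κ i) * 2⁻¹) / ‖f‖ := by gcongr
        _ = _ := by ring
    · intro i hi
      have h1 := hI _ (hmem i (hi.trans_le hj))
      unfold bb at h1
      have h2 : (lvl xs f ((2 : ℝ) ^ (κ i))).card ≤
          (lvl xs (((‖f‖⁻¹ : ℝ) : 𝕜) • f) ((2 : ℝ) ^ (κ i) / ‖f‖)).card := by
        apply Finset.card_le_card
        intro n hn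
        rw [h.mem_lvl (by positivity)] at hn ⊢
        rw [map_smul, norm_smul, RCLike.norm_ofReal, abs_of_pos (by positivity), div_eq_inv_mul]
        gcongr
      have h3 := lowerDem_mono (𝕜 := 𝕜) x h2
      calc τ / ‖f‖ ≤ ((2 : ℝ) ^ (κ i) * lowerDem 𝕜 x (lvl xs f ((2 : ℝ) ^ (κ i))).card) / ‖f‖ := by
            gcongr
        _ = (2 : ℝ) ^ (κ i) / ‖f‖ * lowerDem 𝕜 x (lvl xs f ((2 : ℝ) ^ (κ i))).card := by ring
        _ ≤ _ := by gcongr
  have := h.iter hL j _ hS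
  rw [← mul_div_assoc, div_le_iff₀ hf0] at this
  exact this

lemma layer (D b : ℝ) (hD : 0 ≤ D) (hb0 : 0 ≤ b) (hb : b ≤ D) (r M : ℕ) :
    b ^ r ≤ ∑ i ∈ Finset.range M, (D * (1 / 2) ^ i) ^ r * (if D * (1 / 2) ^ (i + 1) < b then 1 else 0)
      + (D * (1 / 2) ^ M) ^ r := by
  induction M with
  | zero => simpa using pow_le_pow_left₀ hb0 hb r
  | succ M ih =>
    rw [Finset.sum_range_succ]
    split_ifs with h1
    · have : 0 ≤ (D * (1 / 2) ^ (M + 1)) ^ r := by positivity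
      linarith
    · push Not at h1
      have h2 : b ^ r ≤ (D * (1 / 2) ^ (M + 1)) ^ r := pow_le_pow_left₀ hb0 h1 r
      have h3 : 0 ≤ ∑ i ∈ Finset.range M, (D * (1 / 2) ^ i) ^ r *
          (if D * (1 / 2) ^ (i + 1) < b then (1 : ℝ) else 0) := by
        apply Finset.sum_nonneg
        intro i _
        split_ifs <;> positivity
      linarith

lemma geom_half (M : ℕ) : ∑ i ∈ Finset.range M, ((1 : ℝ) / 2) ^ i ≤ 2 := by
  induction M with
  | zero => simp
  | succ M _ =>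
    have : ∀ N : ℕ, ∑ i ∈ Finset.range N, ((1 : ℝ) / 2) ^ i = 2 - 2 * (1 / 2) ^ N := by
      intro N
      induction N with
      | zero => simp
      | succ N ih => rw [Finset.sum_range_succ, ih]; ring
    rw [this]
    have : (0 : ℝ) < (1 / 2) ^ (M + 1) := by positivity
    linarith

lemma QG.sum_bound (h : QG x xs C) {L : ℕ}
    (hL : ∀ (q : ℕ) (t : ℝ), S x xs (2 ^ (q + 1 + L)) t → S x xs (2 ^ q) (2 * t))
    {f : X} (hf : f ≠ 0) (I : Finset ℤ) :
    ∑ k ∈ I, (bb x xs f k) ^ (L + 2) ≤ (2 * C * ‖f‖) ^ (L + 2) * 2 ^ (2 * L + 4) := by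
  have hC := h.one_le
  have hf0 : 0 < ‖f‖ := norm_pos_iff.2 hf
  set D := 2 * C * ‖f‖ with hD
  have hDpos : 0 < D := by positivity
  set M := I.card with hM
  have h1 : ∀ k ∈ I, (bb x xs f k) ^ (L + 2) ≤
      ∑ i ∈ Finset.range M, (D * (1 / 2) ^ i) ^ (L + 2) *
        (if D * (1 / 2) ^ (i + 1) < bb x xs f k then 1 else 0)
      + (D * (1 / 2) ^ M) ^ (L + 2) := fun k _ =>
    layer D _ hDpos.le (bb_nonneg f k) (h.weak f (by positivity)) _ _
  have h2 : ∀ i, ∑ k ∈ I, (if D * (1 / 2) ^ (i + 1) < bb x xs f k then (1 : ℝ) else 0) ≤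
      2 ^ ((i + 2) * (L + 1)) := by
    intro i
    rw [Finset.sum_ite, Finset.sum_const_zero, add_zero, Finset.sum_const, nsmul_eq_mul, mul_one]
    by_contra hcon
    push Not at hcon
    have hcon' : 2 ^ ((i + 2) * (L + 1)) ≤
        (I.filter (fun k => D * (1 / 2) ^ (i + 1) < bb x xs f k)).card := by
      have : ((2 ^ ((i + 2) * (L + 1)) : ℕ) : ℝ) <
        ((I.filter (fun k => D * (1 / 2) ^ (i + 1) < bb x xs f k)).card : ℝ) := by
        push_cast; exact hcon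
      exact_mod_cast this.le
    have h3 := h.card_bound hL hf _ (D * (1 / 2) ^ (i + 1)) (by
      intro k hk
      exact (Finset.mem_filter.1 hk).2.le) (i + 2) hcon'
    rw [← hD] at h3
    have h4 : (2 : ℝ) ^ (i + 2) * (D * (1 / 2) ^ (i + 1)) = 2 * D := by
      rw [show i + 2 = (i + 1) + 1 by ring, pow_succ (2 : ℝ) (i + 1)]
      rw [one_div, inv_pow]
      field_simp
    linarith
  calc ∑ k ∈ I, (bb x xs f k) ^ (L + 2)
      ≤ ∑ k ∈ I, (∑ i ∈ Finset.range M, (D * (1 / 2) ^ i) ^ (L + 2) *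
        (if D * (1 / 2) ^ (i + 1) < bb x xs f k then 1 else 0)
      + (D * (1 / 2) ^ M) ^ (L + 2)) := Finset.sum_le_sum h1
    _ = ∑ i ∈ Finset.range M, (D * (1 / 2) ^ i) ^ (L + 2) *
        ∑ k ∈ I, (if D * (1 / 2) ^ (i + 1) < bb x xs f k then (1 : ℝ) else 0)
        + M * (D * (1 / 2) ^ M) ^ (L + 2) := by
      rw [Finset.sum_add_distrib, Finset.sum_comm, Finset.sum_const, nsmul_eq_mul]
      congr 1
      apply Finset.sum_congr rfl
      intro i _
      rw [Finset.mul_sum]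
    _ ≤ ∑ i ∈ Finset.range M, D ^ (L + 2) * 2 ^ (2 * L + 2) * (1 / 2) ^ i
        + D ^ (L + 2) := by
      apply add_le_add
      · apply Finset.sum_le_sum
        intro i _
        calc (D * (1 / 2) ^ i) ^ (L + 2) *
              ∑ k ∈ I, (if D * (1 / 2) ^ (i + 1) < bb x xs f k then (1 : ℝ) else 0)
            ≤ (D * (1 / 2) ^ i) ^ (L + 2) * 2 ^ ((i + 2) * (L + 1)) := by gcongr; exact h2 i
          _ = _ := by
            rw [mul_pow, show (i + 2) * (L + 1) = i * (L + 1) + (2 * L + 2) by ring, pow_add,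
              ← pow_mul, show i * (L + 2) = i * (L + 1) + i by ring, pow_add (1 / 2 : ℝ)]
            have : ((1 : ℝ) / 2) ^ (i * (L + 1)) * 2 ^ (i * (L + 1)) = 1 := by
              rw [← mul_pow]; norm_num
            calc _ = D ^ (L + 2) * 2 ^ (2 * L + 2) * (1 / 2) ^ i *
                  (((1 : ℝ) / 2) ^ (i * (L + 1)) * 2 ^ (i * (L + 1))) := by ring
              _ = _ := by rw [this, mul_one]; ring
      · rw [mul_pow, ← pow_mul]
        have h5 : (M : ℝ) * (1 / 2) ^ (M * (L + 2)) ≤ 1 := by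
          have h6 : (M : ℝ) ≤ 2 ^ (M * (L + 2)) := by
            have : M < 2 ^ M := Nat.lt_two_pow_self
            have h7 : (2 : ℕ) ^ M ≤ 2 ^ (M * (L + 2)) := Nat.pow_le_pow_right (by norm_num) (by nlinarith)
            exact_mod_cast (this.le.trans h7)
          have h8 : ((1 : ℝ) / 2) ^ (M * (L + 2)) * 2 ^ (M * (L + 2)) = 1 := by
            rw [← mul_pow]; norm_num
          calc (M : ℝ) * (1 / 2) ^ (M * (L + 2)) ≤ 2 ^ (M * (L + 2)) * (1 / 2) ^ (M * (L + 2)) := by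
                gcongr
            _ = 1 := by rw [mul_comm, h8]
        have h9 : 0 < D ^ (L + 2) := by positivity
        nlinarith
    _ = D ^ (L + 2) * 2 ^ (2 * L + 2) * ∑ i ∈ Finset.range M, (1 / 2 : ℝ) ^ i + D ^ (L + 2) := by
      rw [Finset.mul_sum]
    _ ≤ D ^ (L + 2) * 2 ^ (2 * L + 2) * 2 + D ^ (L + 2) * 2 ^ (2 * L + 2) * 2 := by
      apply add_le_add
      · gcongr
        exact geom_half M
      · have h9 : 0 < D ^ (L + 2) := by positivity
        have h10 : (1 : ℝ) ≤ 2 ^ (2 * L + 2) := one_le_pow₀ (by norm_num)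
        nlinarith
    _ = D ^ (L + 2) * 2 ^ (2 * L + 4) := by ring

/-- decreasing rearrangement -/
noncomputable def rearr (a : ℕ → ℝ) (m : ℕ) : ℝ :=
  sInf {t : ℝ | 0 ≤ t ∧ {n | t < a n}.encard < m}

lemma rearr_nonneg (a : ℕ → ℝ) (m : ℕ) : 0 ≤ rearr a m :=
  Real.sInf_nonneg (fun _ ht => ht.1)

lemma QG.rearr_lt (h : QG x xs C) (f : X) {α : ℝ} (hα : 0 < α) {m : ℕ}
    (hm : α < rearr (fun n => ‖xs n f‖) m) : m ≤ (lvl xs f α).card := by
  by_contra hcon
  push Not at hcon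
  have : rearr (fun n => ‖xs n f‖) m ≤ α := by
    apply csInf_le ⟨0, fun _ ht => ht.1⟩
    refine ⟨hα.le, ?_⟩
    calc {n | α < ‖xs n f‖}.encard ≤ ((lvl xs f α : Finset ℕ) : Set ℕ).encard := by
          apply Set.encard_le_encard
          intro n hn
          rw [Finset.mem_coe, h.mem_lvl hα]
          exact (show α < ‖xs n f‖ from hn).le
      _ = ((lvl xs f α).card : ℕ∞) := Set.encard_coe_eq_coe_finsetCard _
      _ < m := by exact_mod_cast hcon
  linarith

lemma QG.psum (h : QG x xs C) {L : ℕ}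
    (hL : ∀ (q : ℕ) (t : ℝ), S x xs (2 ^ (q + 1 + L)) t → S x xs (2 ^ q) (2 * t))
    {f : X} (hf : f ≠ 0) (M : ℕ) :
    ∑ m ∈ Finset.range M, rearr (fun n => ‖xs n f‖) (m + 1) ^ (L + 2) *
      lowerDem 𝕜 x (m + 1) ^ (L + 1) * (lowerDem 𝕜 x (m + 1) - lowerDem 𝕜 x m) ≤
      (2 ^ (2 * L + 5) * (2 * C) * ‖f‖) ^ (L + 2) := by
  classical
  have hC := h.one_le
  have hf0 : 0 < ‖f‖ := norm_pos_iff.2 hf
  set s := lowerDem 𝕜 x with hs
  have hs0 : ∀ m, 0 ≤ s m := lowerDem_nonneg x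
  have hsm : Monotone s := lowerDem_mono x
  set ρ := rearr (fun n => ‖xs n f‖) with hρ
  have hρ0 : ∀ m, 0 ≤ ρ m := rearr_nonneg _
  have hex : ∀ m, ∃ k : ℤ, 0 < ρ (m + 1) → (2 : ℝ) ^ k < ρ (m + 1) ∧ ρ (m + 1) ≤ 2 ^ (k + 1) := by
    intro m
    by_cases h0 : 0 < ρ (m + 1)
    · obtain ⟨k, hk⟩ := exists_mem_Ioc_zpow h0 (show (1 : ℝ) < 2 by norm_num)
      exact ⟨k, fun _ => ⟨hk.1, hk.2⟩⟩
    · exact ⟨0, fun h1 => absurd h1 h0⟩
  choose K hK using hex
  set P := (Finset.range M).filter (fun m => 0 < ρ (m + 1)) with hP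
  set J := P.image K with hJ
  have hdiff : ∀ m, 0 ≤ s (m + 1) ^ (L + 2) - s m ^ (L + 2) := by
    intro m
    have := pow_le_pow_left₀ (hs0 m) (hsm (Nat.le_succ m)) (L + 2)
    simpa using this
  calc ∑ m ∈ Finset.range M, ρ (m + 1) ^ (L + 2) * s (m + 1) ^ (L + 1) * (s (m + 1) - s m)
      = ∑ m ∈ P, ρ (m + 1) ^ (L + 2) * s (m + 1) ^ (L + 1) * (s (m + 1) - s m) := by
        symm
        apply Finset.sum_subset (Finset.filter_subset _ _)
        intro m hm hm'
        have h1 : ρ (m + 1) = 0 := by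
          apply le_antisymm _ (hρ0 _)
          by_contra hcon
          push Not at hcon
          exact hm' (Finset.mem_filter.2 ⟨hm, hcon⟩)
        rw [h1]
        simp
    _ ≤ ∑ m ∈ P, ((2 : ℝ) ^ (K m + 1)) ^ (L + 2) * (s (m + 1) ^ (L + 2) - s m ^ (L + 2)) := by
        apply Finset.sum_le_sum
        intro m hm
        have h1 := (hK m (Finset.mem_filter.1 hm).2).2
        have h2 : s (m + 1) ^ (L + 1) * (s (m + 1) - s m) ≤ s (m + 1) ^ (L + 2) - s m ^ (L + 2) := by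
          have h3 : s m ^ (L + 1) ≤ s (m + 1) ^ (L + 1) :=
            pow_le_pow_left₀ (hs0 m) (hsm (Nat.le_succ m)) (L + 1)
          have h4 : s m ^ (L + 1) * s m ≤ s (m + 1) ^ (L + 1) * s m :=
            mul_le_mul_of_nonneg_right h3 (hs0 m)
          calc _ = s (m + 1) ^ (L + 1) * s (m + 1) - s (m + 1) ^ (L + 1) * s m := by ring
            _ ≤ s (m + 1) ^ (L + 1) * s (m + 1) - s m ^ (L + 1) * s m := by linarith
            _ = _ := by rw [← pow_succ, ← pow_succ]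
        have h5 : ρ (m + 1) ^ (L + 2) ≤ ((2 : ℝ) ^ (K m + 1)) ^ (L + 2) :=
          pow_le_pow_left₀ (hρ0 _) h1 _
        have h6 : 0 ≤ s (m + 1) ^ (L + 1) * (s (m + 1) - s m) :=
          mul_nonneg (pow_nonneg (hs0 _) _) (sub_nonneg.2 (hsm (Nat.le_succ m)))
        calc ρ (m + 1) ^ (L + 2) * s (m + 1) ^ (L + 1) * (s (m + 1) - s m)
            = ρ (m + 1) ^ (L + 2) * (s (m + 1) ^ (L + 1) * (s (m + 1) - s m)) := by ring
          _ ≤ ((2 : ℝ) ^ (K m + 1)) ^ (L + 2) * (s (m + 1) ^ (L + 2) - s m ^ (L + 2)) :=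
            mul_le_mul h5 h2 h6 (by positivity)
    _ = ∑ k ∈ J, ∑ m ∈ P.filter (fun m => K m = k),
          ((2 : ℝ) ^ (K m + 1)) ^ (L + 2) * (s (m + 1) ^ (L + 2) - s m ^ (L + 2)) := by
        rw [Finset.sum_fiberwise_of_maps_to]
        intro m hm
        exact Finset.mem_image_of_mem _ hm
    _ ≤ ∑ k ∈ J, 2 ^ (L + 2) * (bb x xs f k) ^ (L + 2) := by
        apply Finset.sum_le_sum
        intro k _
        calc ∑ m ∈ P.filter (fun m => K m = k),
          ((2 : ℝ) ^ (K m + 1)) ^ (L + 2) * (s (m + 1) ^ (L + 2) - s m ^ (L + 2))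
            = ((2 : ℝ) ^ (k + 1)) ^ (L + 2) * ∑ m ∈ P.filter (fun m => K m = k),
                (s (m + 1) ^ (L + 2) - s m ^ (L + 2)) := by
              rw [Finset.mul_sum]
              apply Finset.sum_congr rfl
              intro m hm
              rw [(Finset.mem_filter.1 hm).2]
          _ ≤ ((2 : ℝ) ^ (k + 1)) ^ (L + 2) * ∑ m ∈ Finset.range (lvl xs f ((2 : ℝ) ^ k)).card,
                (s (m + 1) ^ (L + 2) - s m ^ (L + 2)) := by
              apply mul_le_mul_of_nonneg_left _ (by positivity)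
              apply Finset.sum_le_sum_of_subset_of_nonneg
              · intro m hm
                rw [Finset.mem_filter, hP, Finset.mem_filter] at hm
                rw [Finset.mem_range]
                have h1 := (hK m hm.1.2).1
                rw [hm.2] at h1
                have := h.rearr_lt f (by positivity) h1
                omega
              · intro m _ _
                exact hdiff m
          _ = ((2 : ℝ) ^ (k + 1)) ^ (L + 2) * s (lvl xs f ((2 : ℝ) ^ k)).card ^ (L + 2) := by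
              rw [Finset.sum_range_sub (fun m => s m ^ (L + 2))]
              have : s 0 = 0 := lowerDem_zero x
              rw [this]
              simp
          _ = 2 ^ (L + 2) * (bb x xs f k) ^ (L + 2) := by
              unfold bb
              rw [zpow_add₀ (by norm_num), zpow_one, mul_pow, mul_pow]
              ring
    _ = 2 ^ (L + 2) * ∑ k ∈ J, (bb x xs f k) ^ (L + 2) := by rw [Finset.mul_sum]
    _ ≤ 2 ^ (L + 2) * ((2 * C * ‖f‖) ^ (L + 2) * 2 ^ (2 * L + 4)) := by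
        gcongr
        exact h.sum_bound hL hf J
    _ ≤ 2 ^ (L + 2) * ((2 * C * ‖f‖) ^ (L + 2) * (2 ^ (2 * L + 4)) ^ (L + 2)) := by
        gcongr
        exact le_self_pow₀ (one_le_pow₀ (by norm_num)) (by omega)
    _ = _ := by
        rw [← mul_pow, ← mul_pow]
        congr 1
        ring

/-- Lorentz norm -/
noncomputable def lorentz (r : ℝ) (s : ℕ → ℝ) (a : ℕ → ℝ) : ℝ≥0∞ :=
  (∑' m : ℕ, ENNReal.ofReal
    (rearr a (m + 1) ^ r * s (m + 1) ^ (r - 1) * (s (m + 1) - s m))) ^ (1 / r)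

lemma rearr_zero (m : ℕ) : rearr (fun _ => (0 : ℝ)) (m + 1) = 0 := by
  apply le_antisymm _ (rearr_nonneg _ _)
  apply csInf_le ⟨0, fun _ ht => ht.1⟩
  refine ⟨le_rfl, ?_⟩
  simp

theorem main (hb : IsBasis x xs) (hq : IsQuasiGreedy x xs)
    {Y : Type*} [NormedAddCommGroup Y] [NormedSpace 𝕜 Y]
    [UniformConvexSpace Y] (T : X ≃L[𝕜] Y) :
    ∃ r : ℝ, 1 ≤ r ∧ ∃ C : ℝ, ∀ f : X,
      lorentz r (lowerDem 𝕜 x) (fun n => ‖xs n f‖) ≤ ENNReal.ofReal (C * ‖f‖) := by
  obtain ⟨C, hC⟩ := hq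
  have h : QG x xs C := ⟨hb.biorth, fun f α hα => hb.fin f α hα, hC⟩
  have hC1 := h.one_le
  obtain ⟨L, hL⟩ := h.key T
  refine ⟨((L + 2 : ℕ) : ℝ), by push_cast; linarith [(Nat.cast_nonneg L : (0 : ℝ) ≤ L)],
    2 ^ (2 * L + 5) * (2 * C), ?_⟩
  intro f
  unfold lorentz
  have hr : (0 : ℝ) < ((L + 2 : ℕ) : ℝ) := by positivity
  have hterm : ∀ m : ℕ, rearr (fun n => ‖xs n f‖) (m + 1) ^ ((L + 2 : ℕ) : ℝ) *
      lowerDem 𝕜 x (m + 1) ^ (((L + 2 : ℕ) : ℝ) - 1) * (lowerDem 𝕜 x (m + 1) - lowerDem 𝕜 x m) =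
      rearr (fun n => ‖xs n f‖) (m + 1) ^ (L + 2) *
      lowerDem 𝕜 x (m + 1) ^ (L + 1) * (lowerDem 𝕜 x (m + 1) - lowerDem 𝕜 x m) := by
    intro m
    rw [Real.rpow_natCast, show (((L + 2 : ℕ) : ℝ) - 1) = ((L + 1 : ℕ) : ℝ) by push_cast; ring,
      Real.rpow_natCast]
  simp_rw [hterm]
  by_cases hf : f = 0
  · have : ∀ m : ℕ, rearr (fun n => ‖xs n f‖) (m + 1) = 0 := by
      intro m
      rw [hf]
      simp only [map_zero, norm_zero]
      exact rearr_zero m
    simp_rw [this]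
    simp only [ne_eq, Nat.add_eq_zero_iff, OfNat.ofNat_ne_zero, and_false, not_false_eq_true,
      zero_pow, zero_mul, ENNReal.ofReal_zero, tsum_zero]
    rw [ENNReal.zero_rpow_of_pos (by positivity)]
    exact bot_le
  · have hsum : (∑' m : ℕ, ENNReal.ofReal (rearr (fun n => ‖xs n f‖) (m + 1) ^ (L + 2) *
        lowerDem 𝕜 x (m + 1) ^ (L + 1) * (lowerDem 𝕜 x (m + 1) - lowerDem 𝕜 x m))) ≤
        ENNReal.ofReal ((2 ^ (2 * L + 5) * (2 * C) * ‖f‖) ^ (L + 2)) := by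
      apply ENNReal.tsum_le_of_sum_range_le
      intro M
      rw [← ENNReal.ofReal_sum_of_nonneg]
      · exact ENNReal.ofReal_le_ofReal (h.psum hL hf M)
      · intro m _
        exact mul_nonneg (mul_nonneg (pow_nonneg (rearr_nonneg _ _) _)
          (pow_nonneg (lowerDem_nonneg _ _) _))
          (sub_nonneg.2 (lowerDem_mono x (Nat.le_succ m)))
    calc _ ≤ (ENNReal.ofReal ((2 ^ (2 * L + 5) * (2 * C) * ‖f‖) ^ (L + 2))) ^
          (1 / ((L + 2 : ℕ) : ℝ)) := ENNReal.rpow_le_rpow hsum (by positivity)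
      _ = ENNReal.ofReal (2 ^ (2 * L + 5) * (2 * C) * ‖f‖) := by
        rw [ENNReal.ofReal_pow (by positivity), ← ENNReal.rpow_natCast, ← ENNReal.rpow_mul,
          mul_one_div_cancel hr.ne', ENNReal.rpow_one]

end Pool.Agent.H487R3.LorA
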