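import Mathlib

set_option autoImplicit false
open Set Topology

namespace Pool.Agent.H487R3.OrdMetric

variable {W : Type} [LinearOrder W] [WellFoundedLT W]

/-- The assumptions on the ordinal metric. -/
def IsOM (ρ : W → W → ℕ) : Prop :=
  ∀ α β γ : W, α < β → β < γ →
        ρ α γ ≤ max (ρ α β) (ρ β γ) ∧ ρ α β ≤ max (ρ α γ) (ρ β γ) ∧
          0 < ρ α β ∧ ρ α γ ≠ ρ β γ

lemma exists_gt (hunc : ¬ (Set.univ : Set W).Countable) (hc : ∀ a : W, (Set.Iio a).Countable)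
    (β : W) : ∃ γ, β < γ := by
  by_contra h
  push Not at h
  apply hunc
  have : (Set.univ : Set W) ⊆ insert β (Set.Iio β) := by
    intro x _
    rcases (h x).lt_or_eq with h1 | h1
    · exact Or.inr h1
    · exact Or.inl h1
  exact ((hc β).insert β).mono this

lemma pos (hunc : ¬ (Set.univ : Set W).Countable) (hc : ∀ a : W, (Set.Iio a).Countable)
    {ρ : W → W → ℕ} (hρ : IsOM ρ) {α β : W} (h : α < β) : 0 < ρ α β := by
  obtain ⟨γ, hγ⟩ := exists_gt hunc hc β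
  exact (hρ α β γ h hγ).2.2.1

lemma fin {ρ : W → W → ℕ} (hρ : IsOM ρ) (n : ℕ) (α : W) :
    {ξ : W | ξ ≤ α ∧ (ξ = α ∨ ρ ξ α ≤ n)}.Finite := by
  have h1 : {ξ : W | ξ < α ∧ ρ ξ α ≤ n}.Finite := by
    apply Set.Finite.of_finite_image (f := fun ξ => ρ ξ α)
    · apply (Set.finite_Iic n).subset
      rintro _ ⟨ξ, hξ, rfl⟩
      exact hξ.2
    · intro ξ hξ η hη h
      by_contra hne
      rcases lt_or_gt_of_ne hne with h2 | h2
      · exact (hρ ξ η α h2 hη.1).2.2.2 h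
      · exact (hρ η ξ α h2 hξ.1).2.2.2 h.symm
  apply (h1.insert α).subset
  rintro ξ ⟨h2, h3⟩
  rcases h2.lt_or_eq with h4 | h4
  · right
    refine ⟨h4, ?_⟩
    rcases h3 with h3 | h3
    · exact absurd h3 h4.ne
    · exact h3
  · left; exact h4

/-- the closed property of the members of `K` -/
lemma closedProp {ρ : W → W → ℕ} (hρ : IsOM ρ)
    (χ : ℕ × W → (W → Bool))
    (hχ : ∀ p ξ, χ p ξ = true ↔ (ξ ≤ p.2 ∧ (ξ = p.2 ∨ ρ ξ p.2 ≤ p.1)))
    {A : W → Bool} (hA : A ∈ closure (Set.range χ)) {ζ ξ β : W} (h1 : ζ < β) (h2 : ξ < β)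
    (h3 : ρ ζ β ≤ ρ ξ β) (h4 : A β = true) (h5 : A ξ = true) : A ζ = true := by
  have hcl : IsClosed {A : W → Bool | A β = true → A ξ = true → A ζ = true} := by
    have e : {A : W → Bool | A β = true → A ξ = true → A ζ = true} =
        (fun A : W → Bool => (A β, A ξ, A ζ)) ⁻¹' {t | t.1 = true → t.2.1 = true → t.2.2 = true} := by
      rfl
    rw [e]
    exact (isClosed_discrete _).preimage (by fun_prop)
  have hsub : Set.range χ ⊆ {A : W → Bool | A β = true → A ξ = true → A ζ = true} := by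
    rintro _ ⟨⟨n, γ⟩, rfl⟩ h6 h7
    rw [hχ] at h6 h7 ⊢
    simp only at h6 h7 ⊢
    obtain ⟨h6, h6'⟩ := h6
    obtain ⟨h7, h7'⟩ := h7
    rcases h6.lt_or_eq with h8 | h8
    · have hβ : ρ β γ ≤ n := by
        rcases h6' with h | h
        · exact absurd h h8.ne
        · exact h
      have hξ : ρ ξ γ ≤ n := by
        rcases h7' with h | h
        · exact absurd h (h2.trans h8).ne
        · exact h
      have h9 := (hρ ξ β γ h2 h8).2.1
      have h10 := (hρ ζ β γ h1 h8).1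
      refine ⟨(h1.trans h8).le, Or.inr ?_⟩
      have h11 : max (ρ ξ γ) (ρ β γ) ≤ n := max_le hξ hβ
      have h12 : max (ρ ζ β) (ρ β γ) ≤ n := max_le (by omega) hβ
      omega
    · subst h8
      have hξ : ρ ξ β ≤ n := by
        rcases h7' with h | h
        · exact absurd h h2.ne
        · exact h
      exact ⟨h1.le, Or.inr (by omega)⟩
  exact (closure_minimal hsub hcl hA) h4 h5

lemma empty_mem (hunc : ¬ (Set.univ : Set W).Countable) (hc : ∀ a : W, (Set.Iio a).Countable)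
    {ρ : W → W → ℕ} (hρ : IsOM ρ)
    (χ : ℕ × W → (W → Bool))
    (hχ : ∀ p ξ, χ p ξ = true ↔ (ξ ≤ p.2 ∧ (ξ = p.2 ∨ ρ ξ p.2 ≤ p.1))) :
    (fun _ => false) ∈ closure (Set.range χ) := by
  rw [mem_closure_iff_nhds]
  intro t ht
  rw [nhds_pi, Filter.mem_pi] at ht
  obtain ⟨E, hE, s, hs, hst⟩ := ht
  have hinf : (Set.univ : Set W).Infinite := fun h => hunc h.countable
  obtain ⟨α, -, hα⟩ := hinf.exists_notMem_finite hE
  refine ⟨χ (0, α), hst ?_, mem_range_self _⟩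
  intro ξ hξ
  have : χ (0, α) ξ = false := by
    rw [← Bool.not_eq_true, hχ]
    simp only [not_and, not_or, not_le]
    intro h
    have hne : ξ ≠ α := fun h => hα (h ▸ hξ)
    exact ⟨hne, pos hunc hc hρ (lt_of_le_of_ne h hne)⟩
  rw [this]
  exact mem_of_mem_nhds (hs ξ)

/-- `F_n(α) \ {α}` is either empty or an `F_n(ξ)` with `ξ < α`. -/
lemma pred {ρ : W → W → ℕ} (hρ : IsOM ρ) (n : ℕ) (α : W) :
    {ξ : W | ξ < α ∧ ρ ξ α ≤ n} = ∅ ∨ ∃ η < α,
      {ξ : W | ξ < α ∧ ρ ξ α ≤ n} = {ξ : W | ξ ≤ η ∧ (ξ = η ∨ ρ ξ η ≤ n)} := by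
  have hfin : {ξ : W | ξ < α ∧ ρ ξ α ≤ n}.Finite := by
    apply (fin hρ n α).subset
    rintro ξ ⟨h1, h2⟩
    exact ⟨h1.le, Or.inr h2⟩
  rcases Set.eq_empty_or_nonempty {ξ : W | ξ < α ∧ ρ ξ α ≤ n} with h | h
  · left; exact h
  · right
    obtain ⟨η, hη, hmax⟩ := Set.exists_max_image _ id hfin h
    refine ⟨η, hη.1, ?_⟩
    ext ξ
    simp only [mem_setOf_eq]
    constructor
    · rintro ⟨h1, h2⟩
      have h3 : ξ ≤ η := hmax ξ ⟨h1, h2⟩
      refine ⟨h3, ?_⟩
      rcases h3.lt_or_eq with h4 | h4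
      · right
        have := (hρ ξ η α h4 hη.1).2.1
        have h5 := hη.2
        have h6 : max (ρ ξ α) (ρ η α) ≤ n := max_le h2 h5
        omega
      · left; exact h4
    · rintro ⟨h1, h2⟩
      rcases h1.lt_or_eq with h4 | h4
      · have h7 : ρ ξ η ≤ n := by
          rcases h2 with h | h
          · exact absurd h h4.ne
          · exact h
        refine ⟨h4.trans hη.1, ?_⟩
        have := (hρ ξ η α h4 hη.1).1
        have h5 := hη.2
        have h6 : max (ρ ξ η) (ρ η α) ≤ n := max_le h7 h5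
        omega
      · subst h4
        exact hη

end Pool.Agent.H487R3.OrdMetric
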