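import Pool.Agent.H487R3.OrdMetric

set_option autoImplicit false
set_option linter.unusedSectionVars false
open Set Topology

namespace Pool.Agent.H487R3.OrdMetric

variable {W : Type} [LinearOrder W] [WellFoundedLT W]

/-- indicator of `{A : G ⊆ A}` -/
noncomputable def ind (K : Set (W → Bool)) (G : Finset W) : C(K, ℝ) :=
  ⟨fun A => ∏ ξ ∈ G, (if A.1 ξ = true then (1:ℝ) else 0), by
    apply continuous_finsetProd
    intro ξ _
    have h1 : Continuous (fun b : Bool => if b = true then (1:ℝ) else 0) := continuous_of_discreteTopology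
    exact h1.comp ((continuous_apply ξ).comp continuous_subtype_val)⟩

open Classical in
lemma ind_apply (K : Set (W → Bool)) (G : Finset W) (A : K) :
    ind K G A = if (∀ ξ ∈ G, A.1 ξ = true) then 1 else 0 := by
  show ∏ ξ ∈ G, (if A.1 ξ = true then (1:ℝ) else 0) = _
  rw [Finset.prod_ite_zero]
  simp

lemma ind_mul (K : Set (W → Bool)) (G H : Finset W) : ind K G * ind K H = ind K (G ∪ H) := by
  classical
  ext A
  rw [ContinuousMap.mul_apply, ind_apply, ind_apply, ind_apply]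
  by_cases h1 : ∀ ξ ∈ G, A.1 ξ = true
  · by_cases h2 : ∀ ξ ∈ H, A.1 ξ = true
    · have h3 : ∀ ξ ∈ G ∪ H, A.1 ξ = true := by
        intro ξ hξ
        rcases Finset.mem_union.1 hξ with h | h
        · exact h1 ξ h
        · exact h2 ξ h
      rw [if_pos h1, if_pos h2, if_pos h3, one_mul]
    · have h3 : ¬ ∀ ξ ∈ G ∪ H, A.1 ξ = true := by
        intro h
        exact h2 fun ξ hξ => h ξ (Finset.mem_union_right _ hξ)
      rw [if_neg h2, if_neg h3, mul_zero]
  · have h3 : ¬ ∀ ξ ∈ G ∪ H, A.1 ξ = true := by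
      intro h
      exact h1 fun ξ hξ => h ξ (Finset.mem_union_left _ hξ)
    rw [if_neg h1, if_neg h3, zero_mul]

lemma ind_empty (K : Set (W → Bool)) : ind K ∅ = 1 := by
  ext A
  rw [ind_apply]
  simp

/-- the index condition -/
def Vd (ρ : W → W → ℕ) (p : ℕ × W) : Prop := p.1 = 0 ∨ ∃ ξ < p.2, ρ ξ p.2 = p.1

/-- the finite set `F_n(α)` -/
noncomputable def FF {ρ : W → W → ℕ} (hρ : IsOM ρ) (p : ℕ × W) : Finset W :=
  (fin hρ p.1 p.2).toFinset

lemma mem_FF {ρ : W → W → ℕ} (hρ : IsOM ρ) (p : ℕ × W) (ξ : W) :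
    ξ ∈ FF hρ p ↔ ξ ≤ p.2 ∧ (ξ = p.2 ∨ ρ ξ p.2 ≤ p.1) := by
  simp [FF]

/-- the vectors (in `C(K)`) -/
noncomputable def xs (K : Set (W → Bool)) {ρ : W → W → ℕ} (hρ : IsOM ρ) :
    Option {p : ℕ × W // Vd ρ p} → C(K, ℝ)
  | none => 1
  | some p => ind K (FF hρ p.1)

/-- every finite-set indicator is one of the vectors -/
lemma ind_eq_xs (hunc : ¬ (Set.univ : Set W).Countable) (hc : ∀ a : W, (Set.Iio a).Countable)
    {ρ : W → W → ℕ} (hρ : IsOM ρ)
    (χ : ℕ × W → (W → Bool))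
    (hχ : ∀ p ξ, χ p ξ = true ↔ (ξ ≤ p.2 ∧ (ξ = p.2 ∨ ρ ξ p.2 ≤ p.1)))
    (K : Set (W → Bool)) (hK : K = closure (Set.range χ)) (G : Finset W) :
    ∃ i, ind K G = xs K hρ i := by
  classical
  rcases G.eq_empty_or_nonempty with rfl | hG
  · exact ⟨none, ind_empty K⟩
  · obtain ⟨β, hβG, hβ⟩ : ∃ β ∈ G, ∀ ξ ∈ G, ξ ≤ β := ⟨G.max' hG, G.max'_mem hG, fun ξ hξ => G.le_max' ξ hξ⟩
    -- the level
    obtain ⟨m, hm1, hm2⟩ : ∃ m : ℕ, (m = 0 ∨ ∃ ξ ∈ G, ξ < β ∧ ρ ξ β = m) ∧
        ∀ ξ ∈ G, ξ < β → ρ ξ β ≤ m := by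
      rcases (G.filter (· < β)).eq_empty_or_nonempty with h | h
      · refine ⟨0, Or.inl rfl, ?_⟩
        intro ξ hξ h1
        have : ξ ∈ G.filter (· < β) := Finset.mem_filter.2 ⟨hξ, h1⟩
        rw [h] at this
        simp at this
      · obtain ⟨η, hη, hmax⟩ := Finset.exists_max_image _ (fun ξ => ρ ξ β) h
        rw [Finset.mem_filter] at hη
        refine ⟨ρ η β, Or.inr ⟨η, hη.1, hη.2, rfl⟩, ?_⟩
        intro ξ hξ h1
        exact hmax ξ (Finset.mem_filter.2 ⟨hξ, h1⟩)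
    have hv : Vd ρ (m, β) := by
      rcases hm1 with h | ⟨ξ, -, h1, h2⟩
      · exact Or.inl h
      · exact Or.inr ⟨ξ, h1, h2⟩
    refine ⟨some ⟨(m, β), hv⟩, ?_⟩
    show ind K G = ind K (FF hρ (m, β))
    ext A
    rw [ind_apply, ind_apply]
    congr 1
    apply propext
    constructor
    · intro h ζ hζ
      rw [mem_FF] at hζ
      simp only at hζ
      rcases hζ.1.lt_or_eq with h1 | h1
      · have h2 : ρ ζ β ≤ m := by
          rcases hζ.2 with h | h
          · exact absurd h h1.ne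
          · exact h
        have h3 : 0 < ρ ζ β := pos hunc hc hρ h1
        rcases hm1 with h4 | ⟨ξ, hξ, h5, h6⟩
        · omega
        · have hA : A.1 ∈ closure (Set.range χ) := hK ▸ A.2
          exact closedProp hρ χ hχ hA h1 h5 (by omega) (h β hβG) (h ξ hξ)
      · rw [h1]; exact h β hβG
    · intro h ξ hξ
      apply h
      rw [mem_FF]
      simp only
      refine ⟨hβ ξ hξ, ?_⟩
      rcases (hβ ξ hξ).lt_or_eq with h1 | h1
      · right; exact hm2 ξ hξ h1
      · left; exact h1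

/-- density of the span in `C(K)` -/
lemma dense_span (hunc : ¬ (Set.univ : Set W).Countable) (hc : ∀ a : W, (Set.Iio a).Countable)
    {ρ : W → W → ℕ} (hρ : IsOM ρ)
    (χ : ℕ × W → (W → Bool))
    (hχ : ∀ p ξ, χ p ξ = true ↔ (ξ ≤ p.2 ∧ (ξ = p.2 ∨ ρ ξ p.2 ≤ p.1)))
    (K : Set (W → Bool)) (hK : K = closure (Set.range χ)) [CompactSpace K] :
    (Submodule.span ℝ (Set.range (xs K hρ))).topologicalClosure = ⊤ := by
  classical
  set S : Submonoid C(K, ℝ) :=
    { carrier := Set.range (ind K)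
      mul_mem' := by
        rintro _ _ ⟨G, rfl⟩ ⟨H, rfl⟩
        exact ⟨G ∪ H, (ind_mul K G H).symm⟩
      one_mem' := ⟨∅, ind_empty K⟩ } with hS
  have h1 : (Algebra.adjoin ℝ (Set.range (ind K)) : Subalgebra ℝ C(K, ℝ)).topologicalClosure = ⊤ := by
    apply ContinuousMap.subalgebra_topologicalClosure_eq_top_of_separatesPoints
    intro A B hAB
    have : A.1 ≠ B.1 := fun h => hAB (Subtype.ext h)
    obtain ⟨ξ, hξ⟩ := Function.ne_iff.1 this
    refine ⟨ind K {ξ}, ⟨ind K {ξ}, Algebra.subset_adjoin ⟨{ξ}, rfl⟩, rfl⟩, ?_⟩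
    rw [ind_apply, ind_apply]
    simp only [Finset.mem_singleton, forall_eq]
    cases hA : A.1 ξ <;> cases hB : B.1 ξ <;> simp_all
  have h2 : Submodule.span ℝ (Set.range (xs K hρ)) =
      Subalgebra.toSubmodule (Algebra.adjoin ℝ (Set.range (ind K)) : Subalgebra ℝ C(K, ℝ)) := by
    rw [Algebra.adjoin_eq_span]
    have h3 : (Submonoid.closure (Set.range (ind K)) : Set C(K, ℝ)) = Set.range (ind K) := by
      have : Submonoid.closure (Set.range (ind K)) = S := Submonoid.closure_eq S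
      rw [this]
      rfl
    rw [h3]
    congr 1
    ext g
    constructor
    · rintro ⟨i, rfl⟩
      rcases i with _ | p
      · exact ⟨∅, ind_empty K⟩
      · exact ⟨_, rfl⟩
    · rintro ⟨G, rfl⟩
      obtain ⟨i, hi⟩ := ind_eq_xs hunc hc hρ χ hχ K hK G
      exact ⟨i, hi.symm⟩
  rw [← Submodule.dense_iff_topologicalClosure_eq_top, h2]
  have h4 : Dense ((Algebra.adjoin ℝ (Set.range (ind K)) : Subalgebra ℝ C(K, ℝ)) : Set C(K, ℝ)) := by
    rw [dense_iff_closure_eq, ← Subalgebra.topologicalClosure_coe, h1]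
    rfl
  exact h4

end Pool.Agent.H487R3.OrdMetric
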