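import Pool.Agent.H487R3.OrdMetricB

set_option autoImplicit false
set_option linter.unusedSectionVars false
open Set Topology BoundedContinuousFunction

namespace Pool.Agent.H487R3.OrdMetric

variable {W : Type} [LinearOrder W] [WellFoundedLT W]

/-- evaluation functional -/
noncomputable def ev {K : Set (W → Bool)} (a : K) : BoundedContinuousFunction K ℝ →L[ℝ] ℝ :=
  BoundedContinuousFunction.evalCLM ℝ a

lemma ev_apply {K : Set (W → Bool)} (a : K) (v : BoundedContinuousFunction K ℝ) : ev a v = v a := rfl

lemma ev_norm {K : Set (W → Bool)} (a : K) : ‖ev a‖ ≤ 1 := by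
  apply ContinuousLinearMap.opNorm_le_bound _ zero_le_one
  intro v
  rw [one_mul, ev_apply]
  exact v.norm_coe_le_norm a

/-- the point `F_n(α) \ {α}` -/
noncomputable def cut (ρ : W → W → ℕ) (p : ℕ × W) : W → Bool :=
  fun ξ => @decide (ξ < p.2 ∧ ρ ξ p.2 ≤ p.1) (Classical.propDecidable _)

lemma cut_iff (ρ : W → W → ℕ) (p : ℕ × W) (ξ : W) : cut ρ p ξ = true ↔ ξ < p.2 ∧ ρ ξ p.2 ≤ p.1 := by
  simp [cut]

theorem main (hunc : ¬ (Set.univ : Set W).Countable) (hc : ∀ a : W, (Set.Iio a).Countable)
    {ρ : W → W → ℕ} (hρ : IsOM ρ)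
    (χ : ℕ × W → (W → Bool))
    (hχ : ∀ p ξ, χ p ξ = true ↔ (ξ ≤ p.2 ∧ (ξ = p.2 ∨ ρ ξ p.2 ≤ p.1)))
    (K : Set (W → Bool)) (hK : K = closure (Set.range χ)) :
    ∃ (I : Type) (x : I → BoundedContinuousFunction (↥K) ℝ)
          (f : I → (BoundedContinuousFunction (↥K) ℝ →L[ℝ] ℝ)),
          (∀ i j : I, (i = j → f j (x i) = 1) ∧ (i ≠ j → f j (x i) = 0)) ∧
          (Submodule.span ℝ (Set.range x)).topologicalClosure = ⊤ ∧
          (∀ v : BoundedContinuousFunction (↥K) ℝ, (∀ i, f i v = 0) → v = 0) ∧
          ∃ c : ℝ, 0 < c ∧ ∀ v : BoundedContinuousFunction (↥K) ℝ, ∀ t : ℝ, t < c * ‖v‖ →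
            ∃ φ ∈ Submodule.span ℝ (Set.range f), ‖φ‖ ≤ 1 ∧ t < |φ v| := by
  classical
  have hKc : IsClosed K := hK ▸ isClosed_closure
  have : CompactSpace K := isCompact_iff_compactSpace.1 hKc.isCompact
  have hmem : ∀ p, χ p ∈ K := fun p => by rw [hK]; exact subset_closure (mem_range_self p)
  have hemp : (fun _ => false : W → Bool) ∈ K := by
    rw [hK]; exact empty_mem hunc hc hρ χ hχ
  -- the truncated points are either empty or earlier points
  have hcut0 : ∀ p : ℕ × W, (cut ρ p = fun _ => false) ∨ ∃ η < p.2, cut ρ p = χ (p.1, η) := by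
    intro p
    rcases pred hρ p.1 p.2 with h | ⟨η, hη, h⟩
    · left
      funext ξ
      rw [← Bool.not_eq_true, cut_iff]
      intro h1
      have : ξ ∈ {ξ : W | ξ < p.2 ∧ ρ ξ p.2 ≤ p.1} := h1
      rw [h] at this
      exact this
    · right
      refine ⟨η, hη, ?_⟩
      funext ξ
      rw [Bool.eq_iff_iff, cut_iff, hχ]
      have := Set.ext_iff.1 h ξ
      exact this
  have hcut : ∀ p, cut ρ p ∈ K := by
    intro p
    rcases hcut0 p with h | ⟨η, -, h⟩
    · rw [h]; exact hemp
    · rw [h]; exact hmem _
  set pt : ℕ × W → K := fun p => ⟨χ p, hmem p⟩ with hpt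
  set pt' : ℕ × W → K := fun p => ⟨cut ρ p, hcut p⟩ with hpt'
  set pt0 : K := ⟨fun _ => false, hemp⟩ with hpt0
  set e : C(K, ℝ) ≃ₗᵢ[ℝ] (BoundedContinuousFunction K ℝ) :=
    ContinuousMap.linearIsometryBoundedOfCompact K ℝ ℝ with he
  have he_apply : ∀ (g : C(K, ℝ)) (a : K), e g a = g a := fun g a => rfl
  set D : ℕ → W → (BoundedContinuousFunction (↥K) ℝ →L[ℝ] ℝ) :=
    fun n α => ev (pt (n, α)) - ev (pt' (n, α)) with hD
  set x : Option {p : ℕ × W // Vd ρ p} → BoundedContinuousFunction K ℝ := fun i => e (xs K hρ i) with hx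
  set f : Option {p : ℕ × W // Vd ρ p} → (BoundedContinuousFunction (↥K) ℝ →L[ℝ] ℝ) := fun i =>
    match i with
    | none => ev pt0
    | some p => if p.1.1 = 0 then D 0 p.1.2 else D p.1.1 p.1.2 - D (p.1.1 - 1) p.1.2 with hf
  -- the values of D
  have hD1 : ∀ n α, D n α (x none) = 0 := by
    intro n α
    show e (xs K hρ none) (pt (n, α)) - e (xs K hρ none) (pt' (n, α)) = 0
    rw [he_apply, he_apply]
    show (1 : ℝ) - 1 = 0
    norm_num
  have hD2 : ∀ n α (q : {p : ℕ × W // Vd ρ p}),
      D n α (x (some q)) = if (α = q.1.2 ∧ q.1.1 ≤ n) then 1 else 0 := by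
    rintro n α ⟨⟨m, β⟩, hq⟩
    show e (xs K hρ (some ⟨(m, β), hq⟩)) (pt (n, α)) - e (xs K hρ (some ⟨(m, β), hq⟩)) (pt' (n, α)) = _
    rw [he_apply, he_apply]
    show ind K (FF hρ (m, β)) (pt (n, α)) - ind K (FF hρ (m, β)) (pt' (n, α)) = _
    rw [ind_apply, ind_apply]
    have hβ : β ∈ FF hρ (m, β) := by
      rw [mem_FF]; exact ⟨le_rfl, Or.inl rfl⟩
    show (if (∀ ξ ∈ FF hρ (m, β), χ (n, α) ξ = true) then (1:ℝ) else 0) -
      (if (∀ ξ ∈ FF hρ (m, β), cut ρ (n, α) ξ = true) then (1:ℝ) else 0) = _
    have hsub : ∀ ξ, cut ρ (n, α) ξ = true → χ (n, α) ξ = true := by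
      intro ξ h
      rw [cut_iff] at h
      rw [hχ]
      exact ⟨h.1.le, Or.inr h.2⟩
    by_cases h1 : α = β ∧ m ≤ n
    · obtain ⟨rfl, hmn⟩ := h1
      rw [if_pos, if_neg, if_pos ⟨rfl, hmn⟩, sub_zero]
      · intro h
        have := h _ hβ
        rw [cut_iff] at this
        exact lt_irrefl _ this.1
      · intro ξ hξ
        rw [mem_FF] at hξ
        rw [hχ]
        refine ⟨hξ.1, ?_⟩
        rcases hξ.2 with h | h
        · exact Or.inl h
        · exact Or.inr (h.trans hmn)
    · rw [if_neg h1]
      by_cases h2 : ∀ ξ ∈ FF hρ (m, β), cut ρ (n, α) ξ = true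
      · rw [if_pos h2, if_pos (fun ξ hξ => hsub ξ (h2 ξ hξ)), sub_self]
      · rw [if_neg h2, sub_zero, if_neg]
        intro h3
        apply h2
        intro ξ hξ
        have h4 := h3 ξ hξ
        rw [hχ] at h4
        simp only at h4
        rw [cut_iff]
        simp only
        have hne : ξ ≠ α := by
          intro h5
          subst h5
          have h6 := (hχ _ _).1 (h3 β hβ)
          simp only at h6
          have h7 := (mem_FF hρ (m, β) ξ).1 hξ
          simp only at h7
          have h8 : ξ = β := le_antisymm h7.1 h6.1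
          subst h8
          apply h1
          refine ⟨rfl, ?_⟩
          rcases hq with h9 | ⟨ζ, h9, h10⟩
          · simp only at h9
            omega
          · simp only at h9 h10
            have h11 : ζ ∈ FF hρ (m, ξ) := by
              rw [mem_FF]
              exact ⟨h9.le, Or.inr h10.le⟩
            have h12 := (hχ _ _).1 (h3 ζ h11)
            simp only at h12
            rcases h12.2 with h | h
            · exact absurd h h9.ne
            · omega
        refine ⟨lt_of_le_of_ne h4.1 hne, ?_⟩
        rcases h4.2 with h | h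
        · exact absurd h hne
        · exact h
  have hf0 : f none = ev pt0 := rfl
  have hfs : ∀ p, f (some p) = if p.1.1 = 0 then D 0 p.1.2 else D p.1.1 p.1.2 - D (p.1.1 - 1) p.1.2 :=
    fun p => rfl
  have hfmem : ∀ i, f i ∈ Submodule.span ℝ (Set.range f) := fun i =>
    Submodule.subset_span (mem_range_self i)
  -- membership of D in the span
  have hDspan : ∀ n α, D n α ∈ Submodule.span ℝ (Set.range f) := by
    intro n α
    induction n with
    | zero =>
      have : D 0 α = f (some ⟨(0, α), Or.inl rfl⟩) := by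
        rw [hfs]; simp
      rw [this]
      exact hfmem (some ⟨(0, α), Or.inl rfl⟩)
    | succ n ih =>
      by_cases hv : ∃ ξ < α, ρ ξ α = n + 1
      · have : D (n+1) α = f (some ⟨(n+1, α), Or.inr hv⟩) + D n α := by
          rw [hfs, if_neg (Nat.succ_ne_zero n)]
          ext v
          show D (n+1) α v = (D (n+1) α v - D n α v) + D n α v
          ring
        rw [this]
        exact Submodule.add_mem _ (hfmem (some ⟨(n+1, α), Or.inr hv⟩)) ih
      · have h1 : pt (n+1, α) = pt (n, α) := by
          apply Subtype.ext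
          show χ (n+1, α) = χ (n, α)
          funext ξ
          rw [Bool.eq_iff_iff, hχ, hχ]
          simp only
          constructor
          · rintro ⟨h1, h2⟩
            refine ⟨h1, ?_⟩
            rcases h2 with h2 | h2
            · exact Or.inl h2
            · by_cases h3 : ξ = α
              · exact Or.inl h3
              · right
                by_contra h4
                exact hv ⟨ξ, lt_of_le_of_ne h1 h3, by omega⟩
          · rintro ⟨h1, h2⟩
            refine ⟨h1, ?_⟩
            rcases h2 with h2 | h2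
            · exact Or.inl h2
            · right; omega
        have h2 : pt' (n+1, α) = pt' (n, α) := by
          apply Subtype.ext
          show cut ρ (n+1, α) = cut ρ (n, α)
          funext ξ
          rw [Bool.eq_iff_iff, cut_iff, cut_iff]
          simp only
          constructor
          · rintro ⟨h1, h2⟩
            refine ⟨h1, ?_⟩
            by_contra h4
            exact hv ⟨ξ, h1, by omega⟩
          · rintro ⟨h1, h2⟩
            exact ⟨h1, by omega⟩
        have : D (n+1) α = D n α := by
          show ev (pt (n+1, α)) - ev (pt' (n+1, α)) = ev (pt (n, α)) - ev (pt' (n, α))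
          rw [h1, h2]
        rw [this]
        exact ih
  have h0span : ev pt0 ∈ Submodule.span ℝ (Set.range f) :=
    Submodule.subset_span ⟨none, rfl⟩
  have hptspan : ∀ (n : ℕ) (α : W), ev (pt (n, α)) ∈ Submodule.span ℝ (Set.range f) := by
    intro n α
    induction α using WellFoundedLT.induction with
    | ind α ih =>
      have h1 : ev (pt (n, α)) = D n α + ev (pt' (n, α)) := by
        ext v
        show v (pt (n, α)) = (v (pt (n, α)) - v (pt' (n, α))) + v (pt' (n, α))
        ring
      rw [h1]
      apply Submodule.add_mem _ (hDspan n α)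
      rcases hcut0 (n, α) with h | ⟨η, hη, h⟩
      · have : pt' (n, α) = pt0 := Subtype.ext h
        rw [this]; exact h0span
      · have : pt' (n, α) = pt (n, η) := Subtype.ext h
        rw [this]; exact ih η hη
  have hdense : DenseRange pt := by
    show Dense (Set.range pt)
    rw [Subtype.dense_iff]
    have : Subtype.val '' Set.range pt = Set.range χ := by
      rw [← Set.range_comp]
      rfl
    rw [this, hK]
  have : Nonempty K := ⟨pt0⟩
  have hnorm : ∀ v : BoundedContinuousFunction (↥K) ℝ, ∀ t : ℝ, t < 1 * ‖v‖ →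
            ∃ φ ∈ Submodule.span ℝ (Set.range f), ‖φ‖ ≤ 1 ∧ t < |φ v| := by
    intro v t ht
    rw [one_mul] at ht
    by_contra hcon
    push Not at hcon
    have h1 : ∀ p : ℕ × W, |v (pt p)| ≤ t := fun p => hcon (ev (pt p)) (hptspan p.1 p.2) (ev_norm _)
    have h2 : ∀ a : K, |v a| ≤ t := by
      intro a
      refine hdense.induction_on (p := fun a => |v a| ≤ t) a ?_ h1
      exact isClosed_le (by fun_prop) continuous_const
    have h3 : ‖v‖ ≤ t := by
      rw [BoundedContinuousFunction.norm_le_of_nonempty]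
      intro a
      rw [Real.norm_eq_abs]
      exact h2 a
    linarith
  refine ⟨Option {p : ℕ × W // Vd ρ p}, x, f, ?_, ?_, ?_, 1, one_pos, hnorm⟩
  · -- biorthogonality
    intro i j
    rcases j with _ | ⟨⟨n, α⟩, hj⟩
    · rw [hf0]
      rcases i with _ | ⟨⟨m, β⟩, hi⟩
      · refine ⟨fun _ => ?_, fun h => absurd rfl h⟩
        show e (xs K hρ none) pt0 = 1
        rw [he_apply]
        rfl
      · refine ⟨fun h => by simp at h, fun _ => ?_⟩
        show e (xs K hρ (some ⟨(m, β), hi⟩)) pt0 = 0
        rw [he_apply]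
        show ind K (FF hρ (m, β)) pt0 = 0
        rw [ind_apply, if_neg]
        intro h
        have := h β (by rw [mem_FF]; exact ⟨le_rfl, Or.inl rfl⟩)
        simp [hpt0] at this
    · rw [hfs]
      simp only
      rcases i with _ | ⟨⟨m, β⟩, hi⟩
      · refine ⟨fun h => by simp at h, fun _ => ?_⟩
        by_cases hn : n = 0
        · rw [if_pos hn]; exact hD1 _ _
        · rw [if_neg hn, _root_.sub_apply, hD1, hD1, sub_zero]
      · have key : (if n = 0 then D 0 α else D n α - D (n-1) α) (x (some ⟨(m, β), hi⟩)) =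
            if (α = β ∧ m = n) then 1 else 0 := by
          by_cases hn : n = 0
          · rw [if_pos hn, hD2]
            simp only
            congr 1
            apply propext
            constructor
            · rintro ⟨h1, h2⟩; exact ⟨h1, by omega⟩
            · rintro ⟨h1, h2⟩; exact ⟨h1, by omega⟩
          · rw [if_neg hn, _root_.sub_apply, hD2, hD2]
            simp only
            by_cases h1 : α = β
            · by_cases h2 : m ≤ n
              · by_cases h3 : m = n
                · rw [if_pos ⟨h1, h2⟩, if_neg, if_pos ⟨h1, h3⟩, sub_zero]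
                  rintro ⟨-, h⟩; omega
                · rw [if_pos ⟨h1, h2⟩, if_pos ⟨h1, by omega⟩, if_neg, sub_self]
                  rintro ⟨-, h⟩; exact h3 h
              · rw [if_neg, if_neg, if_neg, sub_zero]
                · rintro ⟨-, h⟩; omega
                · rintro ⟨-, h⟩; omega
                · rintro ⟨-, h⟩; omega
            · rw [if_neg, if_neg, if_neg, sub_zero]
              · rintro ⟨h, -⟩; exact h1 h
              · rintro ⟨h, -⟩; exact h1 h
              · rintro ⟨h, -⟩; exact h1 h
        rw [key]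
        constructor
        · intro h
          simp only [Option.some.injEq, Subtype.mk.injEq, Prod.mk.injEq] at h
          rw [if_pos ⟨h.2.symm, h.1⟩]
        · intro h
          rw [if_neg]
          rintro ⟨h1, h2⟩
          apply h
          simp [h1, h2]
  · -- density
    rw [← Submodule.dense_iff_topologicalClosure_eq_top]
    have h1 : Dense ((Submodule.span ℝ (Set.range (xs K hρ))) : Set C(K, ℝ)) :=
      Submodule.dense_iff_topologicalClosure_eq_top.2 (dense_span hunc hc hρ χ hχ K hK)
    have h2 : Dense (e '' ((Submodule.span ℝ (Set.range (xs K hρ))) : Set C(K, ℝ))) :=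
      e.surjective.denseRange.dense_image e.continuous h1
    apply h2.mono
    rintro _ ⟨g, hg, rfl⟩
    have h3 : Submodule.map (e.toLinearEquiv : C(K, ℝ) →ₗ[ℝ] BoundedContinuousFunction K ℝ)
        (Submodule.span ℝ (Set.range (xs K hρ))) = Submodule.span ℝ (Set.range x) := by
      rw [Submodule.map_span, ← Set.range_comp]
      rfl
    show e g ∈ Submodule.span ℝ (Set.range x)
    rw [← h3]
    exact ⟨g, hg, rfl⟩
  · -- totality
    intro v hv
    by_contra hne
    have h1 : (0:ℝ) < 1 * ‖v‖ := by
      rw [one_mul]; exact norm_pos_iff.2 hne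
    obtain ⟨φ, hφ, -, h2⟩ := hnorm v 0 h1
    have h3 : φ v = 0 := by
      have : Submodule.span ℝ (Set.range f) ≤ LinearMap.ker
          ((ContinuousLinearMap.apply ℝ ℝ v : (BoundedContinuousFunction K ℝ →L[ℝ] ℝ) →L[ℝ] ℝ) :
            (BoundedContinuousFunction K ℝ →L[ℝ] ℝ) →ₗ[ℝ] ℝ) := by
        rw [Submodule.span_le]
        rintro _ ⟨i, rfl⟩
        exact hv i
      exact this hφ
    rw [h3, abs_zero] at h2
    exact lt_irrefl _ h2

end Pool.Agent.H487R3.OrdMetric
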